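import Pool.Agent.Helper23.MEI.Stat

/-!
# Project MEI (M2), regime I: all violations at most `.002`, sum at most `.004`

Assembly `A = 3.92` (`A' = 2.085`), losses `l1`. `WI w1 w2` = the cost of the second order term,
`w1 S_0 + w2 (S_1 + S_2 + S_3)` per face; `coreP_small` = the core statement for
`w1 + 3 w2 + 4.17 κ ≤ .1254`.
-/

set_option autoImplicit false

namespace Pool.Agent.Helper23.MEI

open Set Metric MeasureTheory Helper80.CW Helper82.CW Helper14.CW Helper93.MEI Helper82.M2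
open Helper14.MEI2 Pool.Agent.Helper52.MEI Pool.Agent.Helper73.MEI Helper37.MEI Helper41.MEI
open Helper33.MEI (Wi)
open Pool.Agent.Helper55.Mass (LN vv)
open Pool.Agent.Helper55.Apex (nc)
open Pool.Agent.Helper55.ApexP (PN alP mu_bal)
open Pool.Agent.Helper73.MEI.SideP (flP share_ok det_ge TN QN TN_nonneg)
open Pool.Agent.Helper73.MEI.ArCor (Rng cols face_numM corP arcP rowN wN)
open Pool.Agent.Helper55.TentL (apex_lin)
open Pool.Agent.Helper96.Kap (kap)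
open Pool.Agent.Helper31.SR
open Helper78.MEI
open Pool.Agent.Helper73.MEI.ZEl (coords)
open Helper75.MEI2 (mu vt Qf)
open scoped RealInnerProductSpace ENNReal

variable {a : Fin 4 → E3} {K : Set E3} {S : Fin 4 → ℝ} {σ : Measure (E3 × E3)}
  {c : Fin 4 → E3} {z : Fin 4 → Fin 4 → E3}

/-- the share of the capacity -/
theorem share_num {T Q : ℝ} (hT0 : 0 ≤ T) (hT : T ≤ 0.1962) (hQ : Q ≤ 0.0654 * T) :
    35 / 48 + 9 / 16 * T + 5 / 12 * Q ≤ 35 / 48 + 0.58975 * T ∧ 0 < 1 - T ^ 2 / 4 ∧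
    22.6276 * 0.04764 * (35 / 48 + 0.58975 * T) ^ 2 / (2.085 * (1 - T ^ 2 / 4)) ≤
      0.2749 + 0.4983 * T := by
  have h1 : 0 < 1 - T ^ 2 / 4 := by nlinarith
  refine ⟨by linarith, h1, ?_⟩
  rw [div_le_iff₀ (by positivity)]
  have h2 : 0 ≤ T * (0.1962 - T) := mul_nonneg hT0 (by linarith)
  have h3 : 0 ≤ T * (T * (0.1962 - T)) := mul_nonneg hT0 h2
  nlinarith

theorem tent_num {s : ℝ} (h0 : 0 ≤ s) (h1 : s ≤ 0.002) :
    3 / 2 * (1 + s) - 3 / 8 * (1 + s - 0.002) ^ 2 ≤ 1.06209 ^ 2 ∧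
    1 / 2 * (1 + s) - (1 + s - 0.002) ^ 2 / 8 ≤ (0.1138 + (1 + s - 0.002) / 2) ^ 2 := by
  constructor <;> nlinarith

theorem sq_num {t r : ℝ} (h1 : t ≤ 0.0654) (h2 : t ^ 2 * (1 - t / 2) / 2 ≤ r) :
    0.48365 * t ^ 2 ≤ r := by
  refine le_trans ?_ h2
  nlinarith [sq_nonneg t]

theorem QN_num {x y z : ℝ} (hx : 0 ≤ x) (hy : 0 ≤ y) (hz : 0 ≤ z) (hx2 : x ≤ 0.0654)
    (hy2 : y ≤ 0.0654) (hz2 : z ≤ 0.0654) :
    x ^ 2 + y ^ 2 + z ^ 2 ≤ 0.0654 * (x + y + z) := by nlinarith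

/-- **the face of the vertex `τ 0` in regime I** -/
theorem face_I {w1 w2 : ℝ} (W : WI w1 w2) [IsFiniteMeasure σ] (h : CN K σ a c)
    (v : Viol K a S) (hS : ∀ i, S i ≤ 0.002) (hs : ∑ i, S i ≤ 0.004)
    (τ : Equiv.Perm (Fin 4)) :
    LLs σ a (l1 a) (τ 0) + (0.2551 * S (τ 0) - 0.0057 * (S (τ 1) + S (τ 2) + S (τ 3)))
      - (w1 * S (τ 0) + w2 * (S (τ 1) + S (τ 2) + S (τ 3))) ≤ Wi a (τ 0) K σ 3.92 := by
  obtain ⟨z, hz⟩ := cv_exists h
  have h' := h.perm τ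
  have v' := viol_perm v τ
  have hz' := hz.perm τ
  obtain ⟨N, hNd⟩ : ∃ N, N = NM (fun i => a (τ i)) (fun i j => z (τ i) (τ j)) := ⟨_, rfl⟩
  obtain ⟨R, hRd⟩ : ∃ R, R = RM (fun i => a (τ i)) (fun i j => z (τ i) (τ j)) := ⟨_, rfl⟩
  have hN : ∀ k m, 0 ≤ N k m := fun k m => by
    rw [hNd]
    exact NM_nonneg h' v' hz' k m
  have hd : ∀ k, N k k = 0 := fun k => by
    rw [hNd]
    exact NM_diag k
  have hcol : ∀ m, nc N m ≤ 9 / 10 := fun m => by
    rw [hNd]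
    exact nc_le h' v' hz' m
  have hc : (9 / 10 : ℝ) < 1 := by norm_num
  have hR0 : ∀ j, 0 ≤ R j := fun j => by
    rw [hRd]
    exact RM_nonneg h' v' hz' j
  have s0 : 0 ≤ S (τ 0) := v.nn _
  have s1 : 0 ≤ S (τ 1) := v.nn _
  have s2 : 0 ≤ S (τ 2) := v.nn _
  have s3 : 0 ≤ S (τ 3) := v.nn _
  have hX : S (τ 0) + (S (τ 1) + S (τ 2) + S (τ 3)) ≤ 0.004 := by
    have e1 : ∑ k, S k = S (τ 0) + S (τ 1) + S (τ 2) + S (τ 3) := by
      rw [← Equiv.sum_comp τ S, Fin.sum_univ_four]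
    linarith
  have C := cols rng004 h' v' hz' hX
  rw [← hNd, ← hRd] at C
  obtain ⟨B, hB⟩ := frames h.ha
  have hl := l1_ok (a := a) h.ha
  have hMρ : ∀ p k : Fin 3, k ≠ p → MA σ a (l1 a) τ p k ≤ 0.04764 := fun p k hk =>
    (MA_le h.ha hl h.pm h.hull h.hp hB v.nn v.le hS (by norm_num) τ hk).trans
      Helper21.Mom.Mbar_002
  have hM3 : ∀ p : Fin 3, MA σ a (l1 a) τ p p ≤ 0 := fun p =>
    MA_third1 h.ha h.pm.mem h.hp τ (fun x hx => (v.le _ x hx).trans (hS _)) p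
  -- columns
  have n0 := (C 0).2.1
  have n1 := (C 1).2.1
  have n2 := (C 2).2.1
  have a01 := hN 0 1
  have a02 := hN 0 2
  have a10 := hN 1 0
  have a12 := hN 1 2
  have a20 := hN 2 0
  have a21 := hN 2 1
  have d0 := hd 0
  have d1 := hd 1
  have d2 := hd 2
  have e0 : nc N 0 = N 1 0 + N 2 0 := by unfold nc; linarith
  have e1 : nc N 1 = N 0 1 + N 2 1 := by unfold nc; linarith
  have e2 : nc N 2 = N 0 2 + N 1 2 := by unfold nc; linarith
  have m0 : 0 ≤ nc N 0 := by rw [e0]; linarith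
  have m1 : 0 ≤ nc N 1 := by rw [e1]; linarith
  have m2 : 0 ≤ nc N 2 := by rw [e2]; linarith
  obtain ⟨T, hT⟩ : ∃ T, T = nc N 0 + nc N 1 + nc N 2 := ⟨_, rfl⟩
  have hT0 : 0 ≤ T := by linarith
  have hT2 : T ≤ 0.1962 := by linarith
  have hTT : Pool.Agent.Helper55.TentL.TT N = T := by
    rw [hT, e0, e1, e2]
    unfold Pool.Agent.Helper55.TentL.TT
    ring
  have hQT : QN N ≤ 0.0654 * T := by
    rw [hT]
    exact QN_num m0 m1 m2 n0 n1 n2
  obtain ⟨f1, f2, f3⟩ := share_num hT0 hT2 hQT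
  have hφ : ∀ p, (0.04764 : ℝ) ≤ (0.2749 + 0.4983 * T) *
      (2.085 * Pool.Agent.Helper55.Mass.Id (flP (PN N) p)) := by
    intro p
    have h1 := share_ok hN hd hc hcol (A' := 2.085) (ρ := 0.04764)
      (C := 35 / 48 + 0.58975 * T) (D := 1 - T ^ 2 / 4) (by norm_num) (by norm_num) f2
      (by
        have := det_ge hN hd
        have e : TN N = T := hT.symm
        rwa [e] at this) (by
        have e : TN N = T := hT.symm
        rw [e]
        exact f1) p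
    have h2 : 0 ≤ 2.085 * Pool.Agent.Helper55.Mass.Id (flP (PN N) p) := by
      have := Pool.Agent.Helper73.MEI.SideP.flN_pos hN hd hc hcol p
      positivity
    exact h1.trans (mul_le_mul_of_nonneg_right f3 h2)
  have eA : (3.92 / 2 + 1 / 8 : ℝ) = 2.085 := by norm_num
  obtain ⟨x, hx, hxs⟩ : ∃ x ∈ K, Qv a (τ 0) x = S (τ 0) ∨ S (τ 0) = 0 := by
    rcases v.att (τ 0) with h0 | ⟨x, hx, h0⟩
    · obtain ⟨x, hx⟩ := h.ne
      exact ⟨x, hx, Or.inr h0⟩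
    · exact ⟨x, hx, Or.inl h0⟩
  obtain ⟨i, j, hij, key⟩ := face_numM rng004 h v hz τ hX (A := 3.92) (by norm_num)
    (l := l1 a) hl (δ3 := fun _ => 0) (dE := fun _ => 0) (dm := fun _ => 0) hM3
    (fun _ => le_rfl) (fun _ => le_rfl) (fun _ => by norm_num) (ρ := 0.04764) (by norm_num)
    hMρ hx hxs hNd hRd (κ := fun _ => 0) (fun _ => le_rfl) (fun _ => by norm_num)
    (fun p => by
      unfold Pool.Agent.Helper55.Mass.Id
      refine mul_nonneg (by positivity) (setIntegral_nonneg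
        Pool.Agent.Helper55.Sx.Sim_meas fun t ht => ?_)
      have := Pool.Agent.Helper96.Kap.kap_nonneg hN hc hcol (fun k =>
        Pool.Agent.Helper55.Mass.vv_nonneg ht k) p
      positivity)
    (φ := 0.2749 + 0.4983 * T) (by linarith) (by linarith)
    (fun p => by
      rw [eA]
      have := hφ p
      linarith)
  rw [eA] at key
  simp only [mul_zero, zero_div, sub_zero, add_zero] at key
  -- nodes
  have r0 : 0.2132 * rowN N 0 + wN N 0 ≤ 0.1673 * nc N 0 + 0.2132 * (nc N 1 + nc N 2) ∧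
      wN N 0 ≤ 0.1673 * nc N 0 + 0.0933 * (nc N 1 + nc N 2) := by
    have q1 : rowN N 0 = N 0 1 + N 0 2 := rfl
    have q2 : wN N 0 = 0.1673 * (N 1 0 + N 2 0) + 0.0933 * (N 1 2 + N 2 1) := rfl
    rw [q1, q2, e0, e1, e2]
    constructor <;> linarith
  have r1 : 0.2132 * rowN N 1 + wN N 1 ≤ 0.1673 * nc N 1 + 0.2132 * (nc N 0 + nc N 2) ∧
      wN N 1 ≤ 0.1673 * nc N 1 + 0.0933 * (nc N 0 + nc N 2) := by
    have q1 : rowN N 1 = N 1 2 + N 1 0 := rfl
    have q2 : wN N 1 = 0.1673 * (N 2 1 + N 0 1) + 0.0933 * (N 2 0 + N 0 2) := rfl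
    rw [q1, q2, e0, e1, e2]
    constructor <;> linarith
  have r2 : 0.2132 * rowN N 2 + wN N 2 ≤ 0.1673 * nc N 2 + 0.2132 * (nc N 0 + nc N 1) ∧
      wN N 2 ≤ 0.1673 * nc N 2 + 0.0933 * (nc N 0 + nc N 1) := by
    have q1 : rowN N 2 = N 2 0 + N 2 1 := rfl
    have q2 : wN N 2 = 0.1673 * (N 0 2 + N 1 2) + 0.0933 * (N 0 1 + N 1 0) := rfl
    rw [q1, q2, e0, e1, e2]
    constructor <;> linarith
  have l0 := node_le (A' := 2.085) rfl (hR0 0) s1 r0.1 r0.2 m0 (by linarith)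
  have l1' := node_le (A' := 2.085) rfl (hR0 1) s2 r1.1 r1.2 m1 (by linarith)
  have l2' := node_le (A' := 2.085) rfl (hR0 2) s3 r2.1 r2.2 m2 (by linarith)
  have harc : arcP 2.085 0.04764 (fun _ => 0) R (fun k => S (τ k.succ)) =
      2 * 0.04764 * (R 0 + R 1 + R 2) := by
    unfold arcP
    have pr : ∀ r s : ℝ, 0 ≤ r → pp (0.04764 * r - 2.085 * 0 * (r + s)) = 0.04764 * r := by
      intro r s hr
      unfold pp
      rw [mul_zero, zero_mul, sub_zero, max_eq_left (by positivity)]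
    simp only [pr _ _ (hR0 0), pr _ _ (hR0 1), pr _ _ (hR0 2)]
    ring
  have hcor : corP 2.085 N R (fun k => S (τ k.succ)) =
      R 0 * (2.085 * (0.2132 * (1 - rowN N 0) - wN N 0))
        + R 1 * (2.085 * (0.2132 * (1 - rowN N 1) - wN N 1))
        + R 2 * (2.085 * (0.2132 * (1 - rowN N 2) - wN N 2))
        - 2.085 * (S (τ 1) * wN N 0 + S (τ 2) * wN N 1 + S (τ 3) * wN N 2) := rfl
  have c0 := C 0
  have c1 := C 1
  have c2 := C 2
  have Q0 := sq_num n0 c0.2.2.2.2.2.1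
  have Q1 := sq_num n1 c1.2.2.2.2.2.1
  have Q2 := sq_num n2 c2.2.2.2.2.2.1
  have b0 := c0.2.2.1
  have b1 := c1.2.2.1
  have b2 := c2.2.2.1
  have S1 := hS (τ 0)
  have S2 := hS (τ 1)
  have S3 := hS (τ 2)
  have S4 := hS (τ 3)
  rcases hxs with hxs | hxs
  · -- attained
    set u : Fin 3 → ℝ := b3 (fun i => a (τ i)) x with hu
    have cx := coords (a := fun i => a (τ i)) h'.ha (h'.hp x hx) (S := fun k => S (τ k.succ))
      (v'.le 1 x hx) (v'.le 2 x hx) (v'.le 3 x hx)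
    have u0 : u 0 = bar (fun i => a (τ i)) 1 x := rfl
    have u1 : u 1 = bar (fun i => a (τ i)) 2 x := rfl
    have u2 : u 2 = bar (fun i => a (τ i)) 3 x := rfl
    rw [← u0, ← u1, ← u2] at cx
    have hq : Qv (fun i => a (τ i)) 0 x = S (τ 0) := hxs
    rw [hq] at cx
    obtain ⟨cf, -, ⟨cc0, cc1, cc2⟩⟩ := cx
    have hQf : Helper75.MEI2.Qf u = 1 + S (τ 0) := by
      rw [← cf]
      unfold Helper75.MEI2.Qf
      ring
    have hcap : ∀ k, S (τ 0) - 0.002 ≤ u k + (u 0 + u 1 + u 2) - 1 := by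
      intro k
      fin_cases k
      · show S (τ 0) - 0.002 ≤ u 0 + (u 0 + u 1 + u 2) - 1
        have e : S (τ 0) - S (τ 1) ≤ u 0 + (u 0 + u 1 + u 2) - 1 := cc0
        linarith
      · show S (τ 0) - 0.002 ≤ u 1 + (u 0 + u 1 + u 2) - 1
        have e : S (τ 0) - S (τ 2) ≤ u 1 + (u 0 + u 1 + u 2) - 1 := cc1
        linarith
      · show S (τ 0) - 0.002 ≤ u 2 + (u 0 + u 1 + u 2) - 1
        have e : S (τ 0) - S (τ 3) ≤ u 2 + (u 0 + u 1 + u 2) - 1 := cc2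
        linarith
    obtain ⟨ζp, z1, z2, z3⟩ := apex_lin hN hd hc hcol (u := u) (s := S (τ 0)) (C := 0.002)
      (r := 1.06209) (V := 0.1138) (x0 := 0.17625) (x1 := 0.2392) hQf s0 (by linarith) hcap
      (by norm_num) (by norm_num) (by norm_num) (tent_num s0 S1).1 (by norm_num)
      (tent_num s0 S1).2 (by norm_num) (by norm_num) (by norm_num)
    rw [hTT] at z3
    obtain ⟨g, hg⟩ : ∃ g, g = 2.085 * ((0.7251 - 0.4983 * T) * (0.17625 - 0.2392 * T)) := ⟨_, rfl⟩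
    have hg0 : 0 ≤ g := by
      rw [hg]
      have h1 : 0 ≤ 0.7251 - 0.4983 * T := by linarith
      have h2 : 0 ≤ 0.17625 - 0.2392 * T := by linarith
      positivity
    have hgle : g ≤ 2.085 * ((1 - (0.2749 + 0.4983 * T)) *
        Pool.Agent.Helper55.Mass.Id (alP N ζp)) := by
      rw [hg]
      have h1 : 0 ≤ 0.7251 - 0.4983 * T := by linarith
      have h2 := mul_le_mul_of_nonneg_left z3 h1
      have e : (1 - (0.2749 + 0.4983 * T)) * Pool.Agent.Helper55.Mass.Id (alP N ζp) =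
        (0.7251 - 0.4983 * T) * Pool.Agent.Helper55.Mass.Id (alP N ζp) := by ring
      rw [e]
      linarith
    have fin := key ζp z1 z2 (1 - (0.2749 + 0.4983 * T)) (by linarith) le_rfl g hg0 hgle
      (w1 * S (τ 0) + w2 * (S (τ 1) + S (τ 2) + S (τ 3)))
      (fun lam q1 q2 => W K σ inferInstance a c h S v hS hs z hz τ N hNd x hx ζp z1 z2
        (0.2749 + 0.4983 * T) (by linarith) (by linarith) hφ lam q1 q2 _)
    rw [harc, hcor] at fin
    have st : ∀ {A B C x y z P Q R' : ℝ}, 0 ≤ A → 0 ≤ B → 0 ≤ C → A ≤ 0.002 →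
        A + (B + C) = S (τ 1) + (S (τ 2) + S (τ 3)) → 0 ≤ x → 0 ≤ y → 0 ≤ z →
        x ≤ 0.0654 → y ≤ 0.0654 → z ≤ 0.0654 → x + y + z = T →
        0.48365 * x ^ 2 ≤ P → 0.48365 * y ^ 2 ≤ Q → 0.48365 * z ^ 2 ≤ R' →
        P ≤ 1.0328 * S (τ 0) → 0 ≤ Q →
        0.2551 * S (τ 0) - 0.0057 * (A + B + C) ≤
        g * ((1 - 0.00022) * S (τ 0) - 1.001 * P - (1.2272 - 1.001) * Q)
        + (P * (0.444522 - 0.348821 * x - 0.444522 * (y + z) - 0.09528)
          + Q * (0.444522 - 0.348821 * y - 0.444522 * (x + z) - 0.09528)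
          + R' * (0.444522 - 0.348821 * z - 0.444522 * (x + y) - 0.09528))
        - (A * (0.348821 * x + 0.194531 * (y + z)) + B * (0.348821 * y + 0.194531 * (x + z))
          + C * (0.348821 * z + 0.194531 * (x + y))) := by
      intro A B C x y z P Q R' hA hB hC hA2 hsum hx hy hz hx2 hy2 hz2 hT' hP hQ hR' hP2 hQ0
      exact stat_num s0 hA hB hC S1 hA2 (by linarith) hx hy hz hx2 hy2 hz2 hP hQ hR' hP2 hQ0
        (by rw [hg, hT'])
    fin_cases i <;> fin_cases j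
    · exact absurd rfl hij
    · have q := st s1 s2 s3 S2 (by ring) m0 m1 m2 n0 n1 n2 (by rw [hT]) Q0 Q1 Q2 b0 (hR0 1)
      beta_reduce at fin
      have fin' : LLs σ a (l1 a) (τ 0) + (R 0 * (2.085 * (0.2132 * (1 - rowN N 0) - wN N 0))
        + R 1 * (2.085 * (0.2132 * (1 - rowN N 1) - wN N 1))
        + R 2 * (2.085 * (0.2132 * (1 - rowN N 2) - wN N 2))
        - 2.085 * (S (τ 1) * wN N 0 + S (τ 2) * wN N 1 + S (τ 3) * wN N 2))
        + g * ((1 - 0.00022) * S (τ 0) - 1.001 * R 0 - (1.2272 - 1.001) * R 1)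
        - 2 * 0.04764 * (R 0 + R 1 + R 2) - (w1 * S (τ 0) + w2 * (S (τ 1) + S (τ 2) + S (τ 3)))
        ≤ Wi a (τ 0) K σ 3.92 := fin
      linarith
    · have q := st s1 s3 s2 S2 (by ring) m0 m2 m1 n0 n2 n1 (by rw [hT]; ring) Q0 Q2 Q1 b0 (hR0 2)
      have fin' : LLs σ a (l1 a) (τ 0) + (R 0 * (2.085 * (0.2132 * (1 - rowN N 0) - wN N 0))
        + R 1 * (2.085 * (0.2132 * (1 - rowN N 1) - wN N 1))
        + R 2 * (2.085 * (0.2132 * (1 - rowN N 2) - wN N 2))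
        - 2.085 * (S (τ 1) * wN N 0 + S (τ 2) * wN N 1 + S (τ 3) * wN N 2))
        + g * ((1 - 0.00022) * S (τ 0) - 1.001 * R 0 - (1.2272 - 1.001) * R 2)
        - 2 * 0.04764 * (R 0 + R 1 + R 2) - (w1 * S (τ 0) + w2 * (S (τ 1) + S (τ 2) + S (τ 3)))
        ≤ Wi a (τ 0) K σ 3.92 := fin
      linarith
    · have q := st s2 s1 s3 S3 (by ring) m1 m0 m2 n1 n0 n2 (by rw [hT]; ring) Q1 Q0 Q2 b1 (hR0 0)
      have fin' : LLs σ a (l1 a) (τ 0) + (R 0 * (2.085 * (0.2132 * (1 - rowN N 0) - wN N 0))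
        + R 1 * (2.085 * (0.2132 * (1 - rowN N 1) - wN N 1))
        + R 2 * (2.085 * (0.2132 * (1 - rowN N 2) - wN N 2))
        - 2.085 * (S (τ 1) * wN N 0 + S (τ 2) * wN N 1 + S (τ 3) * wN N 2))
        + g * ((1 - 0.00022) * S (τ 0) - 1.001 * R 1 - (1.2272 - 1.001) * R 0)
        - 2 * 0.04764 * (R 0 + R 1 + R 2) - (w1 * S (τ 0) + w2 * (S (τ 1) + S (τ 2) + S (τ 3)))
        ≤ Wi a (τ 0) K σ 3.92 := fin
      linarith
    · exact absurd rfl hij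
    · have q := st s2 s3 s1 S3 (by ring) m1 m2 m0 n1 n2 n0 (by rw [hT]; ring) Q1 Q2 Q0 b1 (hR0 2)
      have fin' : LLs σ a (l1 a) (τ 0) + (R 0 * (2.085 * (0.2132 * (1 - rowN N 0) - wN N 0))
        + R 1 * (2.085 * (0.2132 * (1 - rowN N 1) - wN N 1))
        + R 2 * (2.085 * (0.2132 * (1 - rowN N 2) - wN N 2))
        - 2.085 * (S (τ 1) * wN N 0 + S (τ 2) * wN N 1 + S (τ 3) * wN N 2))
        + g * ((1 - 0.00022) * S (τ 0) - 1.001 * R 1 - (1.2272 - 1.001) * R 2)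
        - 2 * 0.04764 * (R 0 + R 1 + R 2) - (w1 * S (τ 0) + w2 * (S (τ 1) + S (τ 2) + S (τ 3)))
        ≤ Wi a (τ 0) K σ 3.92 := fin
      linarith
    · have q := st s3 s1 s2 S4 (by ring) m2 m0 m1 n2 n0 n1 (by rw [hT]; ring) Q2 Q0 Q1 b2 (hR0 0)
      have fin' : LLs σ a (l1 a) (τ 0) + (R 0 * (2.085 * (0.2132 * (1 - rowN N 0) - wN N 0))
        + R 1 * (2.085 * (0.2132 * (1 - rowN N 1) - wN N 1))
        + R 2 * (2.085 * (0.2132 * (1 - rowN N 2) - wN N 2))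
        - 2.085 * (S (τ 1) * wN N 0 + S (τ 2) * wN N 1 + S (τ 3) * wN N 2))
        + g * ((1 - 0.00022) * S (τ 0) - 1.001 * R 2 - (1.2272 - 1.001) * R 0)
        - 2 * 0.04764 * (R 0 + R 1 + R 2) - (w1 * S (τ 0) + w2 * (S (τ 1) + S (τ 2) + S (τ 3)))
        ≤ Wi a (τ 0) K σ 3.92 := fin
      linarith
    · have q := st s3 s2 s1 S4 (by ring) m2 m1 m0 n2 n1 n0 (by rw [hT]; ring) Q2 Q1 Q0 b2 (hR0 1)
      have fin' : LLs σ a (l1 a) (τ 0) + (R 0 * (2.085 * (0.2132 * (1 - rowN N 0) - wN N 0))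
        + R 1 * (2.085 * (0.2132 * (1 - rowN N 1) - wN N 1))
        + R 2 * (2.085 * (0.2132 * (1 - rowN N 2) - wN N 2))
        - 2.085 * (S (τ 1) * wN N 0 + S (τ 2) * wN N 1 + S (τ 3) * wN N 2))
        + g * ((1 - 0.00022) * S (τ 0) - 1.001 * R 2 - (1.2272 - 1.001) * R 1)
        - 2 * 0.04764 * (R 0 + R 1 + R 2) - (w1 * S (τ 0) + w2 * (S (τ 1) + S (τ 2) + S (τ 3)))
        ≤ Wi a (τ 0) K σ 3.92 := fin
      linarith
    · exact absurd rfl hij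
  · -- no violation
    have zN : ∀ {t r : ℝ}, 0 ≤ t → 0.48365 * t ^ 2 ≤ r → r ≤ 1.0328 * S (τ 0) → t = 0 ∧ r ≤ 0 := by
      intro t r h0 h1 h2
      rw [hxs, mul_zero] at h2
      have h3 : t ^ 2 ≤ 0 := by linarith
      exact ⟨by nlinarith, h2⟩
    obtain ⟨t0, p0⟩ := zN m0 Q0 b0
    obtain ⟨t1, p1⟩ := zN m1 Q1 b1
    obtain ⟨t2, p2⟩ := zN m2 Q2 b2
    have R0' := le_antisymm p0 (hR0 0)
    have R1' := le_antisymm p1 (hR0 1)
    have R2' := le_antisymm p2 (hR0 2)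
    have fin := key (fun k => max (zc (fun i => a (τ i)) N x k) 0 + 1)
      (fun k => by positivity)
      (fun k => (le_max_left _ _).trans (le_add_of_nonneg_right zero_le_one)) 0 le_rfl
      (by linarith) 0 le_rfl (by simp)
      (w1 * S (τ 0) + w2 * (S (τ 1) + S (τ 2) + S (τ 3)))
      (fun lam q1 q2 => W K σ inferInstance a c h S v hS hs z hz τ N hNd x hx _
        (fun k => by positivity)
        (fun k => (le_max_left _ _).trans (le_add_of_nonneg_right zero_le_one))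
        (0.2749 + 0.4983 * T) (by linarith) (by linarith) hφ lam q1 (by linarith) _)
    rw [harc, hcor, zero_mul] at fin
    rw [t0, t1, t2, R0'] at l0
    rw [t0, t1, t2, R1'] at l1'
    rw [t0, t1, t2, R2'] at l2'
    rw [R0', R1', R2'] at fin
    linarith

/-- **the core statement in regime I**: `S_i ≤ .002`, `Σ S ≤ .004` -/
theorem coreP_small {w1 w2 : ℝ} (W : WI w1 w2) {X κ : ℝ} (hκ : 0 ≤ κ)
    (hw : w1 + 3 * w2 + 4.17 * κ ≤ 0.1254) :
    CoreP (fun S => (∀ i, S i ≤ 0.002) ∧ ∑ i, S i ≤ 0.004) X κ := by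
  refine coreP_I hκ (fun S hS => hS.1) fun K σ hσ a c hC hX S hV hP => ?_
  refine ⟨fun i => (0.2551 * S i - 0.0057 * (∑ k, S k - S i))
    - (w1 * S i + w2 * (∑ k, S k - S i)), fun i => ?_, ?_⟩
  · obtain ⟨τ, hτ⟩ : ∃ τ : Equiv.Perm (Fin 4), τ 0 = i :=
      ⟨Equiv.swap 0 i, Equiv.swap_apply_left 0 i⟩
    have h1 := face_I W hC hV hP.1 hP.2 τ
    have e1 : ∑ k, S k = S (τ 0) + S (τ 1) + S (τ 2) + S (τ 3) := by
      rw [← Equiv.sum_comp τ S, Fin.sum_univ_four]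
    rw [← hτ, e1]
    refine le_trans (le_of_eq ?_) h1
    ring
  · have hn : 0 ≤ ∑ k, S k := Finset.sum_nonneg fun k _ => hV.nn k
    have e : ∑ i, ((0.2551 * S i - 0.0057 * (∑ k, S k - S i))
        - (w1 * S i + w2 * (∑ k, S k - S i))) = (0.2551 - 3 * 0.0057 - (w1 + 3 * w2)) *
        ∑ k, S k := by
      simp only [Fin.sum_univ_four]
      ring
    rw [e]
    exact mul_le_mul_of_nonneg_right (by linarith) hn

end Pool.Agent.Helper23.MEI
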