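import Pool.Agent.Helper23.MEI.Stat
import Pool.Agent.Helper41.MEI.ArcMA
import Pool.Agent.Helper78.MEI.End6

/-!
# Project MEI (M2), regime I: sum of the violations at most `T ≤ .002`

Assembly `A = 3.92` (`A' = 2.085`), losses `l1`, moments `.0385` (helper41). `WJ T w1 w2 P` = the cost
of the second order term, `w1 S_0 + w2 (S_1 + S_2 + S_3)` per face; `coreP_smallJ` = the core
statement for `w1 + 3 w2 + 4.17 κ ≤ .1577`.
-/

set_option autoImplicit false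

namespace Pool.Agent.Helper23.MEI.J

open Set Metric MeasureTheory Helper80.CW Helper82.CW Helper14.CW Helper93.MEI Helper82.M2
open Helper14.MEI2 Pool.Agent.Helper52.MEI Pool.Agent.Helper73.MEI Helper37.MEI Helper41.MEI
open Helper33.MEI (Wi)
open Pool.Agent.Helper55.Mass (LN vv)
open Pool.Agent.Helper55.Apex (nc)
open Pool.Agent.Helper55.ApexP (PN alP mu_bal)
open Pool.Agent.Helper73.MEI.SideP (flP share_ok det_ge TN QN TN_nonneg)
open Pool.Agent.Helper73.MEI.ArCor (Rng cols face_numM corP arcP rowN wN)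
open Pool.Agent.Helper55.TentL (apex_lin)
open Pool.Agent.Helper96.Kap (kap)
open Pool.Agent.Helper31.SR
open Helper78.MEI
open Pool.Agent.Helper73.MEI.ZEl (coords)
open Helper75.MEI2 (mu vt Qf)
open Pool.Agent.Helper23.MEI (MA_third1 quad1)
open scoped RealInnerProductSpace ENNReal

variable {a : Fin 4 → E3} {K : Set E3} {S : Fin 4 → ℝ} {σ : Measure (E3 × E3)}
  {c : Fin 4 → E3} {z : Fin 4 → Fin 4 → E3}

/-- the numbers of the range `Σ S ≤ .002` -/
theorem rng002 : Rng 0.002 0.03163 0.9776 0.0458 1.0230 0.001023 0.000525 0.0001 1.0005 1.226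
    1.2256 0.1138 where
  X1 := by norm_num
  rm0 := by norm_num
  rmX := by norm_num
  qm0 := by norm_num
  qmr := by norm_num
  nb0 := by norm_num
  nbq := by norm_num
  nb3 := by norm_num
  ρq := by norm_num
  Rbq := by norm_num
  gg0 := by norm_num
  gR := by norm_num
  k1X := by norm_num
  k12X := by norm_num
  k12k := by norm_num
  t21 := by norm_num
  t2X := by norm_num
  δt := by norm_num
  hε := by norm_num
  ng := by norm_num

/-- **the static part of a face**, scalars: `i` the first, `j` the second node -/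
theorem stat_num {s A B C x y z P Q R g : ℝ} (hs : 0 ≤ s) (hA : 0 ≤ A) (hB : 0 ≤ B) (hC : 0 ≤ C)
    (hS : s + (A + B + C) ≤ 0.002) (hx : 0 ≤ x) (hy : 0 ≤ y) (hz : 0 ≤ z) (hx2 : x ≤ 0.0458)
    (hy2 : y ≤ 0.0458) (hz2 : z ≤ 0.0458) (hP : 0.48855 * x ^ 2 ≤ P) (hQ : 0.48855 * y ^ 2 ≤ Q)
    (hR : 0.48855 * z ^ 2 ≤ R) (hP2 : P ≤ 1.0230 * s) (hQ0 : 0 ≤ Q)
    (hg : g = 2.085 * ((0.7778 - 0.3833 * (x + y + z)) * (0.17625 - 0.2392 * (x + y + z)))) :
    0.27985 * s - 0.00318 * (A + B + C) ≤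
      g * ((1 - 0.0001) * s - 1.0005 * P - (1.226 - 1.0005) * Q)
        + (P * (0.444522 - 0.348821 * x - 0.444522 * (y + z) - 0.077)
          + Q * (0.444522 - 0.348821 * y - 0.444522 * (x + z) - 0.077)
          + R * (0.444522 - 0.348821 * z - 0.444522 * (x + y) - 0.077))
        - (A * (0.348821 * x + 0.194531 * (y + z)) + B * (0.348821 * y + 0.194531 * (x + z))
          + C * (0.348821 * z + 0.194531 * (x + y))) := by
  obtain ⟨T, hT⟩ : ∃ T, T = x + y + z := ⟨_, rfl⟩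
  have hT0 : 0 ≤ T := by linarith
  have hT2 : T ≤ 0.1374 := by linarith
  have g0 : g ≤ 0.285828 := by
    rw [hg, ← hT]
    nlinarith
  have g1 : 0.285826 - 0.52877 * T ≤ g := by
    rw [hg, ← hT]
    nlinarith [sq_nonneg T]
  -- the bracket
  obtain ⟨b, hb⟩ : ∃ b, b = (1 - 0.0001) * s - 1.0005 * P - (1.226 - 1.0005) * Q := ⟨_, rfl⟩
  have hbar : b ≤ 1.0240 * s - P := by
    rw [hb]
    have : 0 ≤ P := le_trans (by positivity) hP
    linarith
  have hbar0 : 0 ≤ 1.0240 * s - P := by linarith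
  have k1 : (0.285828 - g) * b ≤ (0.52877 * T + 0.000002) * (1.0240 * s - P) := by
    have h1 : (0.285828 - g) * b ≤ (0.285828 - g) * (1.0240 * s - P) :=
      mul_le_mul_of_nonneg_left hbar (by linarith)
    have h2 : (0.285828 - g) * (1.0240 * s - P) ≤ (0.52877 * T + 0.000002) * (1.0240 * s - P) :=
      mul_le_mul_of_nonneg_right (by linarith) hbar0
    exact h1.trans h2
  have k2 : 0.285828 * b - (0.52877 * T + 0.000002) * (1.0240 * s - P) ≤ g * b := by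
    have : g * b = 0.285828 * b - (0.285828 - g) * b := by ring
    rw [this]
    linarith
  -- the nodes
  have p1 : 0.03981 * x ^ 2 ≤ P * 0.0815 := by
    have := mul_le_mul_of_nonneg_right hP (show (0 : ℝ) ≤ 0.0815 by norm_num)
    nlinarith [sq_nonneg x]
  have p2 : 0.12035 * y ^ 2 ≤ Q * 0.24636 := by
    nlinarith [sq_nonneg y]
  have p3 : 0.1518 * z ^ 2 ≤ R * 0.3108 := by
    nlinarith [sq_nonneg z]
  have hP0 : 0 ≤ P := le_trans (by positivity) hP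
  have hR0 : 0 ≤ R := le_trans (by positivity) hR
  have q2 : Q * 0.24636 ≤ Q * (0.444522 - 0.348821 * y - 0.444522 * (x + z) - 0.077
      - 0.285828 * (1.226 - 1.0005)) :=
    mul_le_mul_of_nonneg_left (by linarith) hQ0
  have q3 : R * 0.3108 ≤ R * (0.444522 - 0.348821 * z - 0.444522 * (x + y) - 0.077) :=
    mul_le_mul_of_nonneg_left (by linarith) hR0
  -- the linear losses
  obtain ⟨ex, hex⟩ : ∃ e, e = 0.541461 * s + 0.348821 * A + 0.194531 * (B + C) := ⟨_, rfl⟩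
  obtain ⟨ey, hey⟩ : ∃ e, e = 0.541461 * s + 0.348821 * B + 0.194531 * (A + C) := ⟨_, rfl⟩
  obtain ⟨ez, hez⟩ : ∃ e, e = 0.541461 * s + 0.348821 * C + 0.194531 * (A + B) := ⟨_, rfl⟩
  have r1 := quad1 (c := 0.03981) (x := x) (e := ex) (d := 0.006801) (by norm_num)
    (by rw [hex]; positivity) (by rw [hex]; linarith)
  have r2 := quad1 (c := 0.12035) (x := y) (e := ey) (d := 0.00225) (by norm_num)
    (by rw [hey]; positivity) (by rw [hey]; linarith)
  have r3 := quad1 (c := 0.1518) (x := z) (e := ez) (d := 0.001784) (by norm_num)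
    (by rw [hez]; positivity) (by rw [hez]; linarith)
  rw [← hb]
  have e1 : (0.52877 * T + 0.000002) * (1.0240 * s - P) =
      (0.54146048 * T + 0.000002048) * s - 0.52877 * T * P - 0.000002 * P := by ring
  rw [e1] at k2
  have key : 0.27985 * s - 0.00318 * (A + B + C) ≤
      0.285828 * b - ((0.54146048 * T + 0.000002048) * s - 0.52877 * T * P - 0.000002 * P)
        + (P * (0.444522 - 0.348821 * x - 0.444522 * (y + z) - 0.077)
          + Q * (0.444522 - 0.348821 * y - 0.444522 * (x + z) - 0.077)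
          + R * (0.444522 - 0.348821 * z - 0.444522 * (x + y) - 0.077))
        - (A * (0.348821 * x + 0.194531 * (y + z)) + B * (0.348821 * y + 0.194531 * (x + z))
          + C * (0.348821 * z + 0.194531 * (x + y))) := by
    have hTs : 0.54146048 * T * s ≤ 0.541461 * T * s := by
      have := mul_nonneg hT0 hs
      nlinarith
    have e2 : x * ex + y * ey + z * ez = 0.541461 * T * s
        + (A * (0.348821 * x + 0.194531 * (y + z)) + B * (0.348821 * y + 0.194531 * (x + z))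
          + C * (0.348821 * z + 0.194531 * (x + y))) := by
      rw [hex, hey, hez, hT]
      ring
    have e3 : P * (0.444522 - 0.348821 * x - 0.444522 * (y + z) - 0.077)
        + 0.52877 * T * P - 0.285828 * 1.0005 * P =
        P * (0.081551086) + P * (0.179949 * x + 0.084248 * (y + z)) := by
      rw [hT]
      ring
    have e4 : P * 0.0815 ≤ P * 0.081551086 := mul_le_mul_of_nonneg_left (by norm_num) hP0
    have e5 : 0 ≤ P * (0.179949 * x + 0.084248 * (y + z)) := by positivity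
    have e6 : 0.006801 * ex + 0.00225 * ey + 0.001784 * ez ≤
        0.00587 * s + 0.00318 * (A + B + C) := by
      rw [hex, hey, hez]
      linarith
    have e7 : Q * (0.444522 - 0.348821 * y - 0.444522 * (x + z) - 0.077
      - 0.285828 * (1.226 - 1.0005)) = Q * (0.444522 - 0.348821 * y - 0.444522 * (x + z) - 0.077)
      - 0.285828 * ((1.226 - 1.0005) * Q) := by ring
    rw [e7] at q2
    rw [hb]
    linarith
  linarith

/-- one node: row and wall masses by the columns -/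
theorem node_le {A' r w R S t u : ℝ} (hA' : A' = 2.085) (hR : 0 ≤ R) (hS : 0 ≤ S)
    (h1 : 0.2132 * r + w ≤ 0.1673 * t + 0.2132 * u) (h2 : w ≤ 0.1673 * t + 0.0933 * u)
    (ht : 0 ≤ t) (hu : 0 ≤ u) :
    R * (0.444522 - 0.348821 * t - 0.444522 * u - 0.077)
      - S * (0.348821 * t + 0.194531 * u) ≤
      R * (A' * (0.2132 * (1 - r) - w)) - A' * (S * w) - 2 * 0.0385 * R := by
  rw [hA']
  have k1 := mul_le_mul_of_nonneg_left h1 hR
  have k2 := mul_le_mul_of_nonneg_left h2 hS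
  have k3 := mul_nonneg hR ht
  have k4 := mul_nonneg hR hu
  have k5 := mul_nonneg hS ht
  have k6 := mul_nonneg hS hu
  nlinarith

/-- the cost of the second order term in the range of regime I -/
def WJ (T w1 w2 : ℝ) (P : (Fin 4 → ℝ) → Prop) : Prop :=
  ∀ (K : Set E3) (σ : Measure (E3 × E3)), IsFiniteMeasure σ →
  ∀ a c : Fin 4 → E3, CN K σ a c → ∀ S : Fin 4 → ℝ, Viol K a S → P S →
  ∑ i, S i ≤ T → ∀ z : Fin 4 → Fin 4 → E3, CV a K z → ∀ τ : Equiv.Perm (Fin 4),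
  (∀ p k : Fin 3, k ≠ p → MA σ a (l1 a) τ p k ≤ 0.0385) → ∀ x ∈ K,
  (Qv a (τ 0) x = S (τ 0) ∨ S (τ 0) = 0) →
  ∀ N : Fin 3 → Fin 3 → ℝ, N = NM (fun i => a (τ i)) (fun i j => z (τ i) (τ j)) →
  ∀ R : Fin 3 → ℝ, R = RM (fun i => a (τ i)) (fun i j => z (τ i) (τ j)) →
  ∀ ζp : Fin 3 → ℝ, (∀ k, 0 < ζp k) → (∀ k, zc (fun i => a (τ i)) N x k ≤ ζp k) →
  ∀ φ, φ = 0.2222 + 0.3833 * TN N →
  (∀ p, 0.0385 ≤ φ * (2.085 * Pool.Agent.Helper55.Mass.Id (flP (PN N) p))) →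
  ∀ lam, 0 ≤ lam → lam ≤ 1 - φ → ∀ e : ℝ, 0 < e →
  WCost a K τ 2.085
    (GM 2.085 N (zc (fun i => a (τ i)) N x) ζp lam (fun p t => φ * flP (PN N) p t)
      (fun p t => kap N (vv t) p) (fun _ => 0) (MB σ a (l1 a) τ)
      (fun p => aE σ a (l1 a) (τ 0) (τ p.succ)) R (fun k => S (τ k.succ)) (S (τ 0)))
    (DM 2.085 N (zc (fun i => a (τ i)) N x) ζp lam (fun p t => φ * flP (PN N) p t)
      (fun p t => kap N (vv t) p) (fun _ => 0) (MB σ a (l1 a) τ)
      (fun j => 1 / qM (fun i => a (τ i)) (fun i j => z (τ i) (τ j)) j)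
      (fun p => Pool.Agent.Helper31.SR.am σ a (l1 a) (τ 0) (τ p.succ)))
    (w1 * S (τ 0) + w2 * (S (τ 1) + S (τ 2) + S (τ 3)) + e)

/-- the share of the capacity -/
theorem share_num {T Q : ℝ} (hT0 : 0 ≤ T) (hT : T ≤ 0.1374) (hQ : Q ≤ 0.0458 * T) :
    35 / 48 + 9 / 16 * T + 5 / 12 * Q ≤ 35 / 48 + 0.5815834 * T ∧ 0 < 1 - T ^ 2 / 4 ∧
    22.6276 * 0.0385 * (35 / 48 + 0.5815834 * T) ^ 2 / (2.085 * (1 - T ^ 2 / 4)) ≤
      0.2222 + 0.3833 * T := by
  have h1 : 0 < 1 - T ^ 2 / 4 := by nlinarith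
  refine ⟨by linarith, h1, ?_⟩
  rw [div_le_iff₀ (by positivity)]
  have h2 : 0 ≤ T * (0.1374 - T) := mul_nonneg hT0 (by linarith)
  have h3 : 0 ≤ T * (T * (0.1374 - T)) := mul_nonneg hT0 h2
  nlinarith

theorem tent_num {s : ℝ} (h0 : 0 ≤ s) (h1 : s ≤ 0.002) :
    3 / 2 * (1 + s) - 3 / 8 * (1 + s - 0.002) ^ 2 ≤ 1.06209 ^ 2 ∧
    1 / 2 * (1 + s) - (1 + s - 0.002) ^ 2 / 8 ≤ (0.1138 + (1 + s - 0.002) / 2) ^ 2 := by
  constructor <;> nlinarith

theorem sq_num {t r : ℝ} (h1 : t ≤ 0.0458) (h2 : t ^ 2 * (1 - t / 2) / 2 ≤ r) :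
    0.48855 * t ^ 2 ≤ r := by
  refine le_trans ?_ h2
  nlinarith [sq_nonneg t]

theorem QN_num {x y z : ℝ} (hx : 0 ≤ x) (hy : 0 ≤ y) (hz : 0 ≤ z) (hx2 : x ≤ 0.0458)
    (hy2 : y ≤ 0.0458) (hz2 : z ≤ 0.0458) :
    x ^ 2 + y ^ 2 + z ^ 2 ≤ 0.0458 * (x + y + z) := by nlinarith

/-- **the face of the vertex `τ 0` in regime I** -/
theorem face_J {T0 w1 w2 : ℝ} {P : (Fin 4 → ℝ) → Prop} (hT0' : T0 ≤ 0.002) (W : WJ T0 w1 w2 P)
    [IsFiniteMeasure σ] (h : CN K σ a c) (v : Viol K a S) (hP : P S) (hs : ∑ i, S i ≤ T0)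
    (τ : Equiv.Perm (Fin 4)) {ep : ℝ} (hep : 0 < ep) :
    LLs σ a (l1 a) (τ 0) + (0.27985 * S (τ 0) - 0.00318 * (S (τ 1) + S (τ 2) + S (τ 3)))
      - (w1 * S (τ 0) + w2 * (S (τ 1) + S (τ 2) + S (τ 3)) + ep) ≤ Wi a (τ 0) K σ 3.92 := by
  obtain ⟨z, hz⟩ := cv_exists h
  have h' := h.perm τ
  have v' := viol_perm v τ
  have hz' := hz.perm τ
  obtain ⟨N, hNd⟩ : ∃ N, N = NM (fun i => a (τ i)) (fun i j => z (τ i) (τ j)) := ⟨_, rfl⟩
  obtain ⟨R, hRd⟩ : ∃ R, R = RM (fun i => a (τ i)) (fun i j => z (τ i) (τ j)) := ⟨_, rfl⟩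
  have hN : ∀ k m, 0 ≤ N k m := fun k m => by
    rw [hNd]
    exact NM_nonneg h' v' hz' k m
  have hd : ∀ k, N k k = 0 := fun k => by
    rw [hNd]
    exact NM_diag k
  have hcol : ∀ m, nc N m ≤ 9 / 10 := fun m => by
    rw [hNd]
    exact nc_le h' v' hz' m
  have hc : (9 / 10 : ℝ) < 1 := by norm_num
  have hR0 : ∀ j, 0 ≤ R j := fun j => by
    rw [hRd]
    exact RM_nonneg h' v' hz' j
  have s0 : 0 ≤ S (τ 0) := v.nn _
  have s1 : 0 ≤ S (τ 1) := v.nn _
  have s2 : 0 ≤ S (τ 2) := v.nn _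
  have s3 : 0 ≤ S (τ 3) := v.nn _
  have hX : S (τ 0) + (S (τ 1) + S (τ 2) + S (τ 3)) ≤ 0.002 := by
    have e1 : ∑ k, S k = S (τ 0) + S (τ 1) + S (τ 2) + S (τ 3) := by
      rw [← Equiv.sum_comp τ S, Fin.sum_univ_four]
    linarith
  have C := cols rng002 h' v' hz' hX
  rw [← hNd, ← hRd] at C
  obtain ⟨B, hB⟩ := frames h.ha
  have hl := l1_ok (a := a) h.ha
  have hMρ : ∀ p k : Fin 3, k ≠ p → MA σ a (l1 a) τ p k ≤ 0.0385 := fun p k hk => by
    have e1 := Fin.sum_univ_four S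
    have := Helper41.ArcT.MA_rho h.ha hl h.pm h.hull h.hp hB v.nn v.le (X := 0.002) (by linarith)
      (by norm_num) τ hk
    linarith
  have hS : ∀ i, S i ≤ 0.002 := fun i =>
    (Finset.single_le_sum (fun k _ => v.nn k) (Finset.mem_univ i)).trans (hs.trans hT0')
  have hM3 : ∀ p : Fin 3, MA σ a (l1 a) τ p p ≤ 0 := fun p =>
    MA_third1 h.ha h.pm.mem h.hp τ (fun x hx => (v.le _ x hx).trans (hS _)) p
  -- columns
  have n0 := (C 0).2.1
  have n1 := (C 1).2.1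
  have n2 := (C 2).2.1
  have a01 := hN 0 1
  have a02 := hN 0 2
  have a10 := hN 1 0
  have a12 := hN 1 2
  have a20 := hN 2 0
  have a21 := hN 2 1
  have d0 := hd 0
  have d1 := hd 1
  have d2 := hd 2
  have e0 : nc N 0 = N 1 0 + N 2 0 := by unfold nc; linarith
  have e1 : nc N 1 = N 0 1 + N 2 1 := by unfold nc; linarith
  have e2 : nc N 2 = N 0 2 + N 1 2 := by unfold nc; linarith
  have m0 : 0 ≤ nc N 0 := by rw [e0]; linarith
  have m1 : 0 ≤ nc N 1 := by rw [e1]; linarith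
  have m2 : 0 ≤ nc N 2 := by rw [e2]; linarith
  obtain ⟨T, hT⟩ : ∃ T, T = nc N 0 + nc N 1 + nc N 2 := ⟨_, rfl⟩
  have hT0 : 0 ≤ T := by linarith
  have hT2 : T ≤ 0.1374 := by linarith
  have hTT : Pool.Agent.Helper55.TentL.TT N = T := by
    rw [hT, e0, e1, e2]
    unfold Pool.Agent.Helper55.TentL.TT
    ring
  have hQT : QN N ≤ 0.0458 * T := by
    rw [hT]
    exact QN_num m0 m1 m2 n0 n1 n2
  obtain ⟨f1, f2, f3⟩ := share_num hT0 hT2 hQT
  have hφ : ∀ p, (0.0385 : ℝ) ≤ (0.2222 + 0.3833 * T) *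
      (2.085 * Pool.Agent.Helper55.Mass.Id (flP (PN N) p)) := by
    intro p
    have h1 := share_ok hN hd hc hcol (A' := 2.085) (ρ := 0.0385)
      (C := 35 / 48 + 0.5815834 * T) (D := 1 - T ^ 2 / 4) (by norm_num) (by norm_num) f2
      (by
        have := det_ge hN hd
        have e : TN N = T := hT.symm
        rwa [e] at this) (by
        have e : TN N = T := hT.symm
        rw [e]
        exact f1) p
    have h2 : 0 ≤ 2.085 * Pool.Agent.Helper55.Mass.Id (flP (PN N) p) := by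
      have := Pool.Agent.Helper73.MEI.SideP.flN_pos hN hd hc hcol p
      positivity
    exact h1.trans (mul_le_mul_of_nonneg_right f3 h2)
  have eA : (3.92 / 2 + 1 / 8 : ℝ) = 2.085 := by norm_num
  obtain ⟨x, hx, hxs⟩ : ∃ x ∈ K, Qv a (τ 0) x = S (τ 0) ∨ S (τ 0) = 0 := by
    rcases v.att (τ 0) with h0 | ⟨x, hx, h0⟩
    · obtain ⟨x, hx⟩ := h.ne
      exact ⟨x, hx, Or.inr h0⟩
    · exact ⟨x, hx, Or.inl h0⟩
  obtain ⟨i, j, hij, key⟩ := face_numM rng002 h v hz τ hX (A := 3.92) (by norm_num)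
    (l := l1 a) hl (δ3 := fun _ => 0) (dE := fun _ => 0) (dm := fun _ => 0) hM3
    (fun _ => le_rfl) (fun _ => le_rfl) (fun _ => by norm_num) (ρ := 0.0385) (by norm_num)
    hMρ hx hxs hNd hRd (κ := fun _ => 0) (fun _ => le_rfl) (fun _ => by norm_num)
    (fun p => by
      unfold Pool.Agent.Helper55.Mass.Id
      refine mul_nonneg (by positivity) (setIntegral_nonneg
        Pool.Agent.Helper55.Sx.Sim_meas fun t ht => ?_)
      have := Pool.Agent.Helper96.Kap.kap_nonneg hN hc hcol (fun k =>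
        Pool.Agent.Helper55.Mass.vv_nonneg ht k) p
      positivity)
    (φ := 0.2222 + 0.3833 * T) (by linarith) (by linarith)
    (fun p => by
      rw [eA]
      have := hφ p
      linarith)
  rw [eA] at key
  simp only [mul_zero, zero_div, sub_zero, add_zero] at key
  -- nodes
  have r0 : 0.2132 * rowN N 0 + wN N 0 ≤ 0.1673 * nc N 0 + 0.2132 * (nc N 1 + nc N 2) ∧
      wN N 0 ≤ 0.1673 * nc N 0 + 0.0933 * (nc N 1 + nc N 2) := by
    have q1 : rowN N 0 = N 0 1 + N 0 2 := rfl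
    have q2 : wN N 0 = 0.1673 * (N 1 0 + N 2 0) + 0.0933 * (N 1 2 + N 2 1) := rfl
    rw [q1, q2, e0, e1, e2]
    constructor <;> linarith
  have r1 : 0.2132 * rowN N 1 + wN N 1 ≤ 0.1673 * nc N 1 + 0.2132 * (nc N 0 + nc N 2) ∧
      wN N 1 ≤ 0.1673 * nc N 1 + 0.0933 * (nc N 0 + nc N 2) := by
    have q1 : rowN N 1 = N 1 2 + N 1 0 := rfl
    have q2 : wN N 1 = 0.1673 * (N 2 1 + N 0 1) + 0.0933 * (N 2 0 + N 0 2) := rfl
    rw [q1, q2, e0, e1, e2]
    constructor <;> linarith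
  have r2 : 0.2132 * rowN N 2 + wN N 2 ≤ 0.1673 * nc N 2 + 0.2132 * (nc N 0 + nc N 1) ∧
      wN N 2 ≤ 0.1673 * nc N 2 + 0.0933 * (nc N 0 + nc N 1) := by
    have q1 : rowN N 2 = N 2 0 + N 2 1 := rfl
    have q2 : wN N 2 = 0.1673 * (N 0 2 + N 1 2) + 0.0933 * (N 0 1 + N 1 0) := rfl
    rw [q1, q2, e0, e1, e2]
    constructor <;> linarith
  have l0 := node_le (A' := 2.085) rfl (hR0 0) s1 r0.1 r0.2 m0 (by linarith)
  have l1' := node_le (A' := 2.085) rfl (hR0 1) s2 r1.1 r1.2 m1 (by linarith)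
  have l2' := node_le (A' := 2.085) rfl (hR0 2) s3 r2.1 r2.2 m2 (by linarith)
  have harc : arcP 2.085 0.0385 (fun _ => 0) R (fun k => S (τ k.succ)) =
      2 * 0.0385 * (R 0 + R 1 + R 2) := by
    unfold arcP
    have pr : ∀ r s : ℝ, 0 ≤ r → pp (0.0385 * r - 2.085 * 0 * (r + s)) = 0.0385 * r := by
      intro r s hr
      unfold pp
      rw [mul_zero, zero_mul, sub_zero, max_eq_left (by positivity)]
    simp only [pr _ _ (hR0 0), pr _ _ (hR0 1), pr _ _ (hR0 2)]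
    ring
  have hcor : corP 2.085 N R (fun k => S (τ k.succ)) =
      R 0 * (2.085 * (0.2132 * (1 - rowN N 0) - wN N 0))
        + R 1 * (2.085 * (0.2132 * (1 - rowN N 1) - wN N 1))
        + R 2 * (2.085 * (0.2132 * (1 - rowN N 2) - wN N 2))
        - 2.085 * (S (τ 1) * wN N 0 + S (τ 2) * wN N 1 + S (τ 3) * wN N 2) := rfl
  have c0 := C 0
  have c1 := C 1
  have c2 := C 2
  have Q0 := sq_num n0 c0.2.2.2.2.2.1
  have Q1 := sq_num n1 c1.2.2.2.2.2.1
  have Q2 := sq_num n2 c2.2.2.2.2.2.1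
  have b0 := c0.2.2.1
  have b1 := c1.2.2.1
  have b2 := c2.2.2.1
  have S1 := hS (τ 0)
  have S2 := hS (τ 1)
  have S3 := hS (τ 2)
  have S4 := hS (τ 3)
  have hxs' := hxs
  rcases hxs with hxs | hxs
  · -- attained
    set u : Fin 3 → ℝ := b3 (fun i => a (τ i)) x with hu
    have cx := coords (a := fun i => a (τ i)) h'.ha (h'.hp x hx) (S := fun k => S (τ k.succ))
      (v'.le 1 x hx) (v'.le 2 x hx) (v'.le 3 x hx)
    have u0 : u 0 = bar (fun i => a (τ i)) 1 x := rfl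
    have u1 : u 1 = bar (fun i => a (τ i)) 2 x := rfl
    have u2 : u 2 = bar (fun i => a (τ i)) 3 x := rfl
    rw [← u0, ← u1, ← u2] at cx
    have hq : Qv (fun i => a (τ i)) 0 x = S (τ 0) := hxs
    rw [hq] at cx
    obtain ⟨cf, -, ⟨cc0, cc1, cc2⟩⟩ := cx
    have hQf : Helper75.MEI2.Qf u = 1 + S (τ 0) := by
      rw [← cf]
      unfold Helper75.MEI2.Qf
      ring
    have hcap : ∀ k, S (τ 0) - 0.002 ≤ u k + (u 0 + u 1 + u 2) - 1 := by
      intro k
      fin_cases k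
      · show S (τ 0) - 0.002 ≤ u 0 + (u 0 + u 1 + u 2) - 1
        have e : S (τ 0) - S (τ 1) ≤ u 0 + (u 0 + u 1 + u 2) - 1 := cc0
        linarith
      · show S (τ 0) - 0.002 ≤ u 1 + (u 0 + u 1 + u 2) - 1
        have e : S (τ 0) - S (τ 2) ≤ u 1 + (u 0 + u 1 + u 2) - 1 := cc1
        linarith
      · show S (τ 0) - 0.002 ≤ u 2 + (u 0 + u 1 + u 2) - 1
        have e : S (τ 0) - S (τ 3) ≤ u 2 + (u 0 + u 1 + u 2) - 1 := cc2
        linarith
    obtain ⟨ζp, z1, z2, z3⟩ := apex_lin hN hd hc hcol (u := u) (s := S (τ 0)) (C := 0.002)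
      (r := 1.06209) (V := 0.1138) (x0 := 0.17625) (x1 := 0.2392) hQf s0 (by linarith) hcap
      (by norm_num) (by norm_num) (by norm_num) (tent_num s0 S1).1 (by norm_num)
      (tent_num s0 S1).2 (by norm_num) (by norm_num) (by norm_num)
    rw [hTT] at z3
    obtain ⟨g, hg⟩ : ∃ g, g = 2.085 * ((0.7778 - 0.3833 * T) * (0.17625 - 0.2392 * T)) := ⟨_, rfl⟩
    have hg0 : 0 ≤ g := by
      rw [hg]
      have h1 : 0 ≤ 0.7778 - 0.3833 * T := by linarith
      have h2 : 0 ≤ 0.17625 - 0.2392 * T := by linarith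
      positivity
    have hgle : g ≤ 2.085 * ((1 - (0.2222 + 0.3833 * T)) *
        Pool.Agent.Helper55.Mass.Id (alP N ζp)) := by
      rw [hg]
      have h1 : 0 ≤ 0.7778 - 0.3833 * T := by linarith
      have h2 := mul_le_mul_of_nonneg_left z3 h1
      have e : (1 - (0.2222 + 0.3833 * T)) * Pool.Agent.Helper55.Mass.Id (alP N ζp) =
        (0.7778 - 0.3833 * T) * Pool.Agent.Helper55.Mass.Id (alP N ζp) := by ring
      rw [e]
      linarith
    have fin := key ζp z1 z2 (1 - (0.2222 + 0.3833 * T)) (by linarith) le_rfl g hg0 hgle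
      (w1 * S (τ 0) + w2 * (S (τ 1) + S (τ 2) + S (τ 3)) + ep)
      (fun lam q1 q2 => W K σ inferInstance a c h S v hP hs z hz τ hMρ x hx hxs' N hNd R hRd ζp z1 z2
        (0.2222 + 0.3833 * T) (by rw [hT]; rfl) hφ lam q1 q2 ep hep)
    rw [harc, hcor] at fin
    have st : ∀ {A B C x y z P Q R' : ℝ}, 0 ≤ A → 0 ≤ B → 0 ≤ C →
        A + (B + C) = S (τ 1) + (S (τ 2) + S (τ 3)) → 0 ≤ x → 0 ≤ y → 0 ≤ z →
        x ≤ 0.0458 → y ≤ 0.0458 → z ≤ 0.0458 → x + y + z = T →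
        0.48855 * x ^ 2 ≤ P → 0.48855 * y ^ 2 ≤ Q → 0.48855 * z ^ 2 ≤ R' →
        P ≤ 1.0230 * S (τ 0) → 0 ≤ Q →
        0.27985 * S (τ 0) - 0.00318 * (A + B + C) ≤
        g * ((1 - 0.0001) * S (τ 0) - 1.0005 * P - (1.226 - 1.0005) * Q)
        + (P * (0.444522 - 0.348821 * x - 0.444522 * (y + z) - 0.077)
          + Q * (0.444522 - 0.348821 * y - 0.444522 * (x + z) - 0.077)
          + R' * (0.444522 - 0.348821 * z - 0.444522 * (x + y) - 0.077))
        - (A * (0.348821 * x + 0.194531 * (y + z)) + B * (0.348821 * y + 0.194531 * (x + z))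
          + C * (0.348821 * z + 0.194531 * (x + y))) := by
      intro A B C x y z P Q R' hA hB hC hsum hx hy hz hx2 hy2 hz2 hT' hP hQ hR' hP2 hQ0
      exact stat_num s0 hA hB hC (by linarith) hx hy hz hx2 hy2 hz2 hP hQ hR' hP2 hQ0
        (by rw [hg, hT'])
    fin_cases i <;> fin_cases j
    · exact absurd rfl hij
    · have q := st s1 s2 s3 (by ring) m0 m1 m2 n0 n1 n2 (by rw [hT]) Q0 Q1 Q2 b0 (hR0 1)
      beta_reduce at fin
      have fin' : LLs σ a (l1 a) (τ 0) + (R 0 * (2.085 * (0.2132 * (1 - rowN N 0) - wN N 0))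
        + R 1 * (2.085 * (0.2132 * (1 - rowN N 1) - wN N 1))
        + R 2 * (2.085 * (0.2132 * (1 - rowN N 2) - wN N 2))
        - 2.085 * (S (τ 1) * wN N 0 + S (τ 2) * wN N 1 + S (τ 3) * wN N 2))
        + g * ((1 - 0.0001) * S (τ 0) - 1.0005 * R 0 - (1.226 - 1.0005) * R 1)
        - 2 * 0.0385 * (R 0 + R 1 + R 2)
        - (w1 * S (τ 0) + w2 * (S (τ 1) + S (τ 2) + S (τ 3)) + ep)
        ≤ Wi a (τ 0) K σ 3.92 := fin
      linarith
    · have q := st s1 s3 s2 (by ring) m0 m2 m1 n0 n2 n1 (by rw [hT]; ring) Q0 Q2 Q1 b0 (hR0 2)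
      have fin' : LLs σ a (l1 a) (τ 0) + (R 0 * (2.085 * (0.2132 * (1 - rowN N 0) - wN N 0))
        + R 1 * (2.085 * (0.2132 * (1 - rowN N 1) - wN N 1))
        + R 2 * (2.085 * (0.2132 * (1 - rowN N 2) - wN N 2))
        - 2.085 * (S (τ 1) * wN N 0 + S (τ 2) * wN N 1 + S (τ 3) * wN N 2))
        + g * ((1 - 0.0001) * S (τ 0) - 1.0005 * R 0 - (1.226 - 1.0005) * R 2)
        - 2 * 0.0385 * (R 0 + R 1 + R 2)
        - (w1 * S (τ 0) + w2 * (S (τ 1) + S (τ 2) + S (τ 3)) + ep)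
        ≤ Wi a (τ 0) K σ 3.92 := fin
      linarith
    · have q := st s2 s1 s3 (by ring) m1 m0 m2 n1 n0 n2 (by rw [hT]; ring) Q1 Q0 Q2 b1 (hR0 0)
      have fin' : LLs σ a (l1 a) (τ 0) + (R 0 * (2.085 * (0.2132 * (1 - rowN N 0) - wN N 0))
        + R 1 * (2.085 * (0.2132 * (1 - rowN N 1) - wN N 1))
        + R 2 * (2.085 * (0.2132 * (1 - rowN N 2) - wN N 2))
        - 2.085 * (S (τ 1) * wN N 0 + S (τ 2) * wN N 1 + S (τ 3) * wN N 2))
        + g * ((1 - 0.0001) * S (τ 0) - 1.0005 * R 1 - (1.226 - 1.0005) * R 0)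
        - 2 * 0.0385 * (R 0 + R 1 + R 2)
        - (w1 * S (τ 0) + w2 * (S (τ 1) + S (τ 2) + S (τ 3)) + ep)
        ≤ Wi a (τ 0) K σ 3.92 := fin
      linarith
    · exact absurd rfl hij
    · have q := st s2 s3 s1 (by ring) m1 m2 m0 n1 n2 n0 (by rw [hT]; ring) Q1 Q2 Q0 b1 (hR0 2)
      have fin' : LLs σ a (l1 a) (τ 0) + (R 0 * (2.085 * (0.2132 * (1 - rowN N 0) - wN N 0))
        + R 1 * (2.085 * (0.2132 * (1 - rowN N 1) - wN N 1))
        + R 2 * (2.085 * (0.2132 * (1 - rowN N 2) - wN N 2))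
        - 2.085 * (S (τ 1) * wN N 0 + S (τ 2) * wN N 1 + S (τ 3) * wN N 2))
        + g * ((1 - 0.0001) * S (τ 0) - 1.0005 * R 1 - (1.226 - 1.0005) * R 2)
        - 2 * 0.0385 * (R 0 + R 1 + R 2)
        - (w1 * S (τ 0) + w2 * (S (τ 1) + S (τ 2) + S (τ 3)) + ep)
        ≤ Wi a (τ 0) K σ 3.92 := fin
      linarith
    · have q := st s3 s1 s2 (by ring) m2 m0 m1 n2 n0 n1 (by rw [hT]; ring) Q2 Q0 Q1 b2 (hR0 0)
      have fin' : LLs σ a (l1 a) (τ 0) + (R 0 * (2.085 * (0.2132 * (1 - rowN N 0) - wN N 0))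
        + R 1 * (2.085 * (0.2132 * (1 - rowN N 1) - wN N 1))
        + R 2 * (2.085 * (0.2132 * (1 - rowN N 2) - wN N 2))
        - 2.085 * (S (τ 1) * wN N 0 + S (τ 2) * wN N 1 + S (τ 3) * wN N 2))
        + g * ((1 - 0.0001) * S (τ 0) - 1.0005 * R 2 - (1.226 - 1.0005) * R 0)
        - 2 * 0.0385 * (R 0 + R 1 + R 2)
        - (w1 * S (τ 0) + w2 * (S (τ 1) + S (τ 2) + S (τ 3)) + ep)
        ≤ Wi a (τ 0) K σ 3.92 := fin
      linarith
    · have q := st s3 s2 s1 (by ring) m2 m1 m0 n2 n1 n0 (by rw [hT]; ring) Q2 Q1 Q0 b2 (hR0 1)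
      have fin' : LLs σ a (l1 a) (τ 0) + (R 0 * (2.085 * (0.2132 * (1 - rowN N 0) - wN N 0))
        + R 1 * (2.085 * (0.2132 * (1 - rowN N 1) - wN N 1))
        + R 2 * (2.085 * (0.2132 * (1 - rowN N 2) - wN N 2))
        - 2.085 * (S (τ 1) * wN N 0 + S (τ 2) * wN N 1 + S (τ 3) * wN N 2))
        + g * ((1 - 0.0001) * S (τ 0) - 1.0005 * R 2 - (1.226 - 1.0005) * R 1)
        - 2 * 0.0385 * (R 0 + R 1 + R 2)
        - (w1 * S (τ 0) + w2 * (S (τ 1) + S (τ 2) + S (τ 3)) + ep)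
        ≤ Wi a (τ 0) K σ 3.92 := fin
      linarith
    · exact absurd rfl hij
  · -- no violation
    have zN : ∀ {t r : ℝ}, 0 ≤ t → 0.48855 * t ^ 2 ≤ r → r ≤ 1.0230 * S (τ 0) → t = 0 ∧ r ≤ 0 := by
      intro t r h0 h1 h2
      rw [hxs, mul_zero] at h2
      have h3 : t ^ 2 ≤ 0 := by linarith
      exact ⟨by nlinarith, h2⟩
    obtain ⟨t0, p0⟩ := zN m0 Q0 b0
    obtain ⟨t1, p1⟩ := zN m1 Q1 b1
    obtain ⟨t2, p2⟩ := zN m2 Q2 b2
    have R0' := le_antisymm p0 (hR0 0)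
    have R1' := le_antisymm p1 (hR0 1)
    have R2' := le_antisymm p2 (hR0 2)
    have fin := key (fun k => max (zc (fun i => a (τ i)) N x k) 0 + 1)
      (fun k => by positivity)
      (fun k => (le_max_left _ _).trans (le_add_of_nonneg_right zero_le_one)) 0 le_rfl
      (by linarith) 0 le_rfl (by simp)
      (w1 * S (τ 0) + w2 * (S (τ 1) + S (τ 2) + S (τ 3)) + ep)
      (fun lam q1 q2 => W K σ inferInstance a c h S v hP hs z hz τ hMρ x hx (Or.inr hxs) N hNd R hRd _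
        (fun k => by positivity)
        (fun k => (le_max_left _ _).trans (le_add_of_nonneg_right zero_le_one))
        (0.2222 + 0.3833 * T) (by rw [hT]; rfl) hφ lam q1 (by linarith) ep hep)
    rw [harc, hcor, zero_mul] at fin
    rw [t0, t1, t2, R0'] at l0
    rw [t0, t1, t2, R1'] at l1'
    rw [t0, t1, t2, R2'] at l2'
    rw [R0', R1', R2'] at fin
    linarith

/-- **the core statement in regime I**: `Σ S ≤ T ≤ .002` -/
theorem coreP_smallJ {T w1 w2 : ℝ} {P : (Fin 4 → ℝ) → Prop} (hT : T ≤ 0.002)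
    (W : WJ T w1 w2 P) {X κ : ℝ} (hκ : 0 ≤ κ) (hw : w1 + 3 * w2 + 4.17 * κ ≤ 0.1577) :
    CoreP (fun S => P S ∧ ∑ i, S i ≤ T) X κ := by
  refine coreP_I_sum hκ hT fun K σ hσ a c hC hX S hV hP hs => ?_
  refine ⟨fun i => (0.27985 * S i - 0.00318 * (∑ k, S k - S i))
    - (w1 * S i + w2 * (∑ k, S k - S i)), fun i => ?_, ?_⟩
  · obtain ⟨τ, hτ⟩ : ∃ τ : Equiv.Perm (Fin 4), τ 0 = i :=
      ⟨Equiv.swap 0 i, Equiv.swap_apply_left 0 i⟩
    refine le_of_forall_pos_le_add fun ep hep => ?_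
    have h1 := face_J hT W hC hV hP hs τ hep
    have e1 : ∑ k, S k = S (τ 0) + S (τ 1) + S (τ 2) + S (τ 3) := by
      rw [← Equiv.sum_comp τ S, Fin.sum_univ_four]
    rw [← hτ, e1]
    linarith
  · have hn : 0 ≤ ∑ k, S k := Finset.sum_nonneg fun k _ => hV.nn k
    have e : ∑ i, ((0.27985 * S i - 0.00318 * (∑ k, S k - S i))
        - (w1 * S i + w2 * (∑ k, S k - S i))) = (0.27985 - 3 * 0.00318 - (w1 + 3 * w2)) *
        ∑ k, S k := by
      simp only [Fin.sum_univ_four]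
      ring
    rw [e]
    exact mul_le_mul_of_nonneg_right (by linarith) hn

end Pool.Agent.Helper23.MEI.J
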