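import Pool.Agent.Helper73.MEI.FV3
import Pool.Agent.Helper73.MEI.SidePhi
import Pool.Agent.Helper55.MEI.Tent3
import Pool.Agent.Helper78.MEI.End5

/-!
# Project MEI (M2), regime I: all violations at most `.002`, sum at most `.004`

Assembly `A = 3.92` (`A' = 2.085`), losses `l1`. `WI w1 w2` = the cost of the second order term,
`w1 S_0 + w2 (S_1 + S_2 + S_3)` per face; `coreP_small` = the core statement for
`w1 + 3 w2 + 4.17 κ ≤ .1254`.
-/

set_option autoImplicit false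

namespace Pool.Agent.Helper23.MEI

open Set Metric MeasureTheory Helper80.CW Helper82.CW Helper14.CW Helper93.MEI Helper82.M2
open Helper14.MEI2 Pool.Agent.Helper52.MEI Pool.Agent.Helper73.MEI Helper37.MEI Helper41.MEI
open Helper33.MEI (Wi)
open Pool.Agent.Helper55.Mass (LN vv)
open Pool.Agent.Helper55.Apex (nc)
open Pool.Agent.Helper55.ApexP (PN alP mu_bal)
open Pool.Agent.Helper73.MEI.SideP (flP share_ok det_ge TN QN TN_nonneg)
open Pool.Agent.Helper73.MEI.ArCor (Rng cols face_numM corP arcP rowN wN)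
open Pool.Agent.Helper55.TentL (apex_lin)
open Pool.Agent.Helper96.Kap (kap)
open Pool.Agent.Helper31.SR
open Helper78.MEI
open Pool.Agent.Helper73.MEI.ZEl (coords)
open Helper75.MEI2 (mu vt Qf)
open scoped RealInnerProductSpace ENNReal

variable {a : Fin 4 → E3} {K : Set E3} {S : Fin 4 → ℝ} {σ : Measure (E3 × E3)}
  {c : Fin 4 → E3} {z : Fin 4 → Fin 4 → E3}

/-- the numbers of the range `Σ S ≤ .004` -/
theorem rng004 : Rng 0.004 0.04473 0.9683 0.0654 1.0328 0.002066 0.00108 0.00022 1.001 1.2272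
    1.2264 0.1152 where
  X1 := by norm_num
  rm0 := by norm_num
  rmX := by norm_num
  qm0 := by norm_num
  qmr := by norm_num
  nb0 := by norm_num
  nbq := by norm_num
  nb3 := by norm_num
  ρq := by norm_num
  Rbq := by norm_num
  gg0 := by norm_num
  gR := by norm_num
  k1X := by norm_num
  k12X := by norm_num
  k12k := by norm_num
  t21 := by norm_num
  t2X := by norm_num
  δt := by norm_num
  hε := by norm_num
  ng := by norm_num

/-- the third column of the losses `l1` -/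
theorem MA_third1 (ha : ∀ i j, i ≠ j → dist (a i) (a j) = 1)
    (hσ : ∀ᵐ z ∂σ, z.1 ∈ K ∧ z.2 ∈ K) (hp : ∀ x ∈ K, Pl a x)
    (τ : Equiv.Perm (Fin 4)) (hQ : ∀ x ∈ K, Qv a (τ 0) x ≤ 0.002) (p : Fin 3) :
    MA σ a (l1 a) τ p p ≤ 0 := by
  have hne : τ 0 ≠ τ p.succ := fun h => (Fin.succ_ne_zero p) (τ.injective h).symm
  have hv := idx_vx (τ 0) (τ p.succ) hne
  have h1 := sM1_third ha hσ hp (idx (τ 0) (τ p.succ)).1 (idx (τ 0) (τ p.succ)).2.1
    (idx (τ 0) (τ p.succ)).2.2 (by rw [hv.1]; exact hQ)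
  rw [hv.2] at h1
  exact max_le h1 le_rfl

/-- one column -/
theorem quad1 {c x e d : ℝ} (hc : 0 < c) (he0 : 0 ≤ e) (he : e ≤ 4 * c * d) :
    -(d * e) ≤ c * x ^ 2 - x * e := by
  have h1 : 0 ≤ (2 * c * x - e) ^ 2 := sq_nonneg _
  have h2 : e * e ≤ 4 * c * d * e := mul_le_mul_of_nonneg_right he he0
  have h3 : 0 ≤ 4 * c * (c * x ^ 2 - x * e + d * e) := by nlinarith
  have h4 : 0 ≤ c * x ^ 2 - x * e + d * e :=
    nonneg_of_mul_nonneg_right h3 (by linarith)
  linarith

/-- **the static part of a face**, scalars: `i` the first, `j` the second node -/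
theorem stat_num {s A B C x y z P Q R g : ℝ} (hs : 0 ≤ s) (hA : 0 ≤ A) (hB : 0 ≤ B) (hC : 0 ≤ C)
    (hs2 : s ≤ 0.002) (hA2 : A ≤ 0.002)
    (hS : s + (A + B + C) ≤ 0.004) (hx : 0 ≤ x) (hy : 0 ≤ y) (hz : 0 ≤ z) (hx2 : x ≤ 0.0654)
    (hy2 : y ≤ 0.0654) (hz2 : z ≤ 0.0654) (hP : 0.48365 * x ^ 2 ≤ P) (hQ : 0.48365 * y ^ 2 ≤ Q)
    (hR : 0.48365 * z ^ 2 ≤ R) (hP2 : P ≤ 1.0328 * s) (hQ0 : 0 ≤ Q)
    (hg : g = 2.085 * ((0.7251 - 0.4983 * (x + y + z)) * (0.17625 - 0.2392 * (x + y + z)))) :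
    0.2551 * s - 0.0057 * (A + B + C) ≤
      g * ((1 - 0.00022) * s - 1.001 * P - (1.2272 - 1.001) * Q)
        + (P * (0.444522 - 0.348821 * x - 0.444522 * (y + z) - 0.09528)
          + Q * (0.444522 - 0.348821 * y - 0.444522 * (x + z) - 0.09528)
          + R * (0.444522 - 0.348821 * z - 0.444522 * (x + y) - 0.09528))
        - (A * (0.348821 * x + 0.194531 * (y + z)) + B * (0.348821 * y + 0.194531 * (x + z))
          + C * (0.348821 * z + 0.194531 * (x + y))) := by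
  obtain ⟨T, hT⟩ : ∃ T, T = x + y + z := ⟨_, rfl⟩
  have hT0 : 0 ≤ T := by linarith
  have hT2 : T ≤ 0.1962 := by linarith
  have g0 : g ≤ 0.266461 := by
    rw [hg, ← hT]
    nlinarith
  have g1 : 0.26646 - 0.544747 * T ≤ g := by
    rw [hg, ← hT]
    nlinarith [sq_nonneg T]
  -- the bracket
  obtain ⟨b, hb⟩ : ∃ b, b = (1 - 0.00022) * s - 1.001 * P - (1.2272 - 1.001) * Q := ⟨_, rfl⟩
  have hbar : b ≤ 1.05 * s - P := by
    rw [hb]
    have : 0 ≤ P := le_trans (by positivity) hP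
    linarith
  have hbar0 : 0 ≤ 1.05 * s - P := by linarith
  have k1 : (0.266461 - g) * b ≤ (0.544747 * T + 0.000001) * (1.05 * s - P) := by
    have h1 : (0.266461 - g) * b ≤ (0.266461 - g) * (1.05 * s - P) :=
      mul_le_mul_of_nonneg_left hbar (by linarith)
    have h2 : (0.266461 - g) * (1.05 * s - P) ≤ (0.544747 * T + 0.000001) * (1.05 * s - P) :=
      mul_le_mul_of_nonneg_right (by linarith) hbar0
    exact h1.trans h2
  have k2 : 0.266461 * b - (0.544747 * T + 0.000001) * (1.05 * s - P) ≤ g * b := by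
    have : g * b = 0.266461 * b - (0.266461 - g) * b := by ring
    rw [this]
    linarith
  -- the nodes
  have p1 : 0.0399 * x ^ 2 ≤ P * 0.0825 := by
    have := mul_le_mul_of_nonneg_right hP (show (0 : ℝ) ≤ 0.0825 by norm_num)
    nlinarith [sq_nonneg x]
  have p2 : 0.1005 * y ^ 2 ≤ Q * 0.2080 := by
    nlinarith [sq_nonneg y]
  have p3 : 0.1295 * z ^ 2 ≤ R * 0.2680 := by
    nlinarith [sq_nonneg z]
  have hP0 : 0 ≤ P := le_trans (by positivity) hP
  have hR0 : 0 ≤ R := le_trans (by positivity) hR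
  have q1 : 0 ≤ P * (0.19592 * x + 0.10022 * (y + z)) := by positivity
  have q2 : Q * 0.2080 ≤ Q * (0.444522 - 0.348821 * y - 0.444522 * (x + z) - 0.09528
      - 0.266461 * (1.2272 - 1.001)) :=
    mul_le_mul_of_nonneg_left (by linarith) hQ0
  have q3 : R * 0.2680 ≤ R * (0.444522 - 0.348821 * z - 0.444522 * (x + y) - 0.09528) :=
    mul_le_mul_of_nonneg_left (by linarith) hR0
  -- the linear losses
  obtain ⟨ex, hex⟩ : ∃ e, e = 0.571985 * s + 0.348821 * A + 0.194531 * (B + C) := ⟨_, rfl⟩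
  obtain ⟨ey, hey⟩ : ∃ e, e = 0.571985 * s + 0.348821 * B + 0.194531 * (A + C) := ⟨_, rfl⟩
  obtain ⟨ez, hez⟩ : ∃ e, e = 0.571985 * s + 0.348821 * C + 0.194531 * (A + B) := ⟨_, rfl⟩
  have r1 := quad1 (c := 0.0399) (x := x) (e := ex) (d := 0.01155) (by norm_num)
    (by rw [hex]; positivity) (by rw [hex]; linarith)
  have r2 := quad1 (c := 0.1005) (x := y) (e := ey) (d := 0.00459) (by norm_num)
    (by rw [hey]; positivity) (by rw [hey]; linarith)
  have r3 := quad1 (c := 0.1295) (x := z) (e := ez) (d := 0.00356) (by norm_num)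
    (by rw [hez]; positivity) (by rw [hez]; linarith)
  rw [← hb]
  have e1 : (0.544747 * T + 0.000001) * (1.05 * s - P) =
      (0.57198435 * T + 0.00000105) * s - 0.544747 * T * P - 0.000001 * P := by ring
  rw [e1] at k2
  have key : 0.2551 * s - 0.0057 * (A + B + C) ≤
      0.266461 * b - ((0.57198435 * T + 0.00000105) * s - 0.544747 * T * P - 0.000001 * P)
        + (P * (0.444522 - 0.348821 * x - 0.444522 * (y + z) - 0.09528)
          + Q * (0.444522 - 0.348821 * y - 0.444522 * (x + z) - 0.09528)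
          + R * (0.444522 - 0.348821 * z - 0.444522 * (x + y) - 0.09528))
        - (A * (0.348821 * x + 0.194531 * (y + z)) + B * (0.348821 * y + 0.194531 * (x + z))
          + C * (0.348821 * z + 0.194531 * (x + y))) := by
    have hTs : 0.57198435 * T * s ≤ 0.571985 * T * s := by
      have := mul_nonneg hT0 hs
      nlinarith
    have e2 : x * ex + y * ey + z * ez = 0.571985 * T * s
        + (A * (0.348821 * x + 0.194531 * (y + z)) + B * (0.348821 * y + 0.194531 * (x + z))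
          + C * (0.348821 * z + 0.194531 * (x + y))) := by
      rw [hex, hey, hez, hT]
      ring
    have e3 : P * (0.444522 - 0.348821 * x - 0.444522 * (y + z) - 0.09528)
        + 0.544747 * T * P - 0.266461 * 1.001 * P =
        P * (0.082514539) + P * (0.195926 * x + 0.100225 * (y + z)) := by
      rw [hT]
      ring
    have e4 : P * 0.0825 ≤ P * 0.082514539 := mul_le_mul_of_nonneg_left (by norm_num) hP0
    have e5 : P * (0.19592 * x + 0.10022 * (y + z)) ≤
        P * (0.195926 * x + 0.100225 * (y + z)) :=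
      mul_le_mul_of_nonneg_left (by linarith) hP0
    have e6 : 0.01155 * ex + 0.00459 * ey + 0.00356 * ez ≤ 0.01128 * s + 0.0057 * (A + B + C) := by
      rw [hex, hey, hez]
      linarith
    have e7 : Q * (0.444522 - 0.348821 * y - 0.444522 * (x + z) - 0.09528
      - 0.266461 * (1.2272 - 1.001)) = Q * (0.444522 - 0.348821 * y - 0.444522 * (x + z) - 0.09528)
      - 0.266461 * ((1.2272 - 1.001) * Q) := by ring
    rw [e7] at q2
    rw [hb]
    linarith
  linarith


/-- one node: row and wall masses by the columns -/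
theorem node_le {A' r w R S t u : ℝ} (hA' : A' = 2.085) (hR : 0 ≤ R) (hS : 0 ≤ S)
    (h1 : 0.2132 * r + w ≤ 0.1673 * t + 0.2132 * u) (h2 : w ≤ 0.1673 * t + 0.0933 * u)
    (ht : 0 ≤ t) (hu : 0 ≤ u) :
    R * (0.444522 - 0.348821 * t - 0.444522 * u - 0.09528)
      - S * (0.348821 * t + 0.194531 * u) ≤
      R * (A' * (0.2132 * (1 - r) - w)) - A' * (S * w) - 2 * 0.04764 * R := by
  rw [hA']
  have k1 := mul_le_mul_of_nonneg_left h1 hR
  have k2 := mul_le_mul_of_nonneg_left h2 hS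
  have k3 := mul_nonneg hR ht
  have k4 := mul_nonneg hR hu
  have k5 := mul_nonneg hS ht
  have k6 := mul_nonneg hS hu
  nlinarith

/-- the cost of the second order term in the range of regime I -/
def WI (w1 w2 : ℝ) : Prop :=
  ∀ (K : Set E3) (σ : Measure (E3 × E3)), IsFiniteMeasure σ →
  ∀ a c : Fin 4 → E3, CN K σ a c → ∀ S : Fin 4 → ℝ, Viol K a S → (∀ i, S i ≤ 0.002) →
  ∑ i, S i ≤ 0.004 → ∀ z : Fin 4 → Fin 4 → E3, CV a K z → ∀ τ : Equiv.Perm (Fin 4),
  ∀ N : Fin 3 → Fin 3 → ℝ, N = NM (fun i => a (τ i)) (fun i j => z (τ i) (τ j)) →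
  ∀ x ∈ K, ∀ ζp : Fin 3 → ℝ, (∀ k, 0 < ζp k) →
  (∀ k, zc (fun i => a (τ i)) N x k ≤ ζp k) →
  ∀ φ, 0.2749 ≤ φ → φ ≤ 0.373 →
  (∀ p, 0.04764 ≤ φ * (2.085 * Pool.Agent.Helper55.Mass.Id (flP (PN N) p))) →
  ∀ lam, 0 ≤ lam → lam ≤ 1 - φ → ∀ G : ℝ × ℝ → ℝ,
  WCost a K τ 2.085 G
    (DM 2.085 N (zc (fun i => a (τ i)) N x) ζp lam (fun p t => φ * flP (PN N) p t)
      (fun p t => kap N (vv t) p) (fun _ => 0) (MB σ a (l1 a) τ)
      (fun j => 1 / qM (fun i => a (τ i)) (fun i j => z (τ i) (τ j)) j)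
      (fun p => Pool.Agent.Helper31.SR.am σ a (l1 a) (τ 0) (τ p.succ)))
    (w1 * S (τ 0) + w2 * (S (τ 1) + S (τ 2) + S (τ 3)))

end Pool.Agent.Helper23.MEI
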