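import Pool.Agent.Helper78.MEI.WB6
import Pool.Agent.Helper60.MEI.R8L
import Pool.Agent.Helper75.MEI2.Tip

/-!
# Project MEI (M2), w-term: two certificates per corner

`PtC` = a pointwise certificate at a corner (every value `G`); `wcost_two` = the cost of a face
from two certificates per corner (deficits `Dn`, `Dn + AP`, weights `1 - β`, `β`) and the tips.
-/

set_option autoImplicit false

namespace Pool.Agent.Helper23.MEI.J

open Set Metric MeasureTheory Helper80.CW Helper82.CW Helper14.CW Helper93.MEI Helper82.M2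
open Helper14.MEI2 Pool.Agent.Helper52.MEI Pool.Agent.Helper73.MEI Helper37.MEI Helper41.MEI
open Helper33.MEI (Wi Dl tx M3 mt mt_pos M3_pos Dl_meas)
open Pool.Agent.Helper31.SR
open Helper78.MEI
open Helper60.R7 (jj ll ch ch_fst ch_snd ch_meas ex_corner)
open scoped RealInnerProductSpace ENNReal

/-- a pointwise certificate at the corner `k`, deficit `Dd`, valid for every value `G` -/
def PtC (a : Fin 4 → E3) (K : Set E3) (τ : Equiv.Perm (Fin 4)) (S : Fin 4 → ℝ) (A' : ℝ)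
    (k : Fin 3) (hh : ℝ) (Dd V : ℝ × ℝ → ℝ) : Prop :=
  ∀ t ∈ Dl, T3 t (jj k) ≤ T3 t k → T3 t (ll k) ≤ T3 t k →
    ¬ (T3 t (jj k) ≤ hh ∧ T3 t (ll k) ≤ hh) → ∀ q ∈ K,
    Yt (fun i => a (τ i)) t q / √(mt t) - ‖a (τ 0) - q‖ ^ 2 ≤ own (S (τ 0)) t →
    ∀ G : ℝ, G + (1 - Dd t) * ‖a (τ 0) - q‖ ^ 2 ≤ Yt (fun i => a (τ i)) t q →
    A' * (G / √(mt t)) - V t ≤
      ff A' (Yt (fun i => a (τ i)) t q / √(mt t) - ‖a (τ 0) - q‖ ^ 2) (‖a (τ 0) - q‖ ^ 2)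

/-- a pointwise certificate at the tip of the corner `k` -/
def TpC (a : Fin 4 → E3) (K : Set E3) (τ : Equiv.Perm (Fin 4)) (S : Fin 4 → ℝ) (A' : ℝ)
    (k : Fin 3) (hh : ℝ) (D om : ℝ × ℝ → ℝ) : Prop :=
  ∀ t ∈ Dl, T3 t (jj k) ≤ T3 t k → T3 t (ll k) ≤ T3 t k →
    T3 t (jj k) ≤ hh → T3 t (ll k) ≤ hh → ∀ q ∈ K,
    Yt (fun i => a (τ i)) t q / √(mt t) - ‖a (τ 0) - q‖ ^ 2 ≤ own (S (τ 0)) t →
    ∀ G : ℝ, G + (1 - D t) * ‖a (τ 0) - q‖ ^ 2 ≤ Yt (fun i => a (τ i)) t q →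
    A' * (G / √(mt t)) - om t ≤
      ff A' (Yt (fun i => a (τ i)) t q / √(mt t) - ‖a (τ 0) - q‖ ^ 2) (‖a (τ 0) - q‖ ^ 2)

/-- the combination of the two certificates at one point -/
theorem comb_pt {A' m w Y b Dn AP D G v0 v1 F : ℝ} (hA : 0 ≤ A') (hm : 0 < m) (hw : 0 ≤ w)
    (hb0 : 0 ≤ b) (hb1 : b ≤ 1) (hD : D ≤ Dn + b * AP) (hG : G + (1 - D) * w ≤ Y)
    (h0 : A' * ((Y - (1 - Dn) * w) / m) - v0 ≤ F)
    (h1 : A' * ((Y - (1 - (Dn + AP)) * w) / m) - v1 ≤ F) :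
    A' * (G / m) - ((1 - b) * v0 + b * v1) ≤ F := by
  have k0 := mul_le_mul_of_nonneg_left h0 (sub_nonneg.2 hb1)
  have k1 := mul_le_mul_of_nonneg_left h1 hb0
  have k2 := mul_le_mul_of_nonneg_right hD hw
  have k3 : G ≤ (1 - b) * (Y - (1 - Dn) * w) + b * (Y - (1 - (Dn + AP)) * w) := by
    nlinarith
  have k4 : G / m ≤ (1 - b) * ((Y - (1 - Dn) * w) / m) + b * ((Y - (1 - (Dn + AP)) * w) / m) := by
    have e : (1 - b) * ((Y - (1 - Dn) * w) / m) + b * ((Y - (1 - (Dn + AP)) * w) / m) =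
        ((1 - b) * (Y - (1 - Dn) * w) + b * (Y - (1 - (Dn + AP)) * w)) / m := by
      ring
    rw [e]
    exact div_le_div_of_nonneg_right k3 hm.le
  have k5 := mul_le_mul_of_nonneg_left k4 hA
  nlinarith

/-- **the cost of a face from two certificates per corner and the tips** -/
theorem wcost_two {a : Fin 4 → E3} {σ : Measure (E3 × E3)} {K : Set E3} {S : Fin 4 → ℝ}
    {c : Fin 4 → E3} (h : CN K σ a c) (v : Viol K a S) (τ : Equiv.Perm (Fin 4))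
    {A' : ℝ} (hA : 0 ≤ A') {G D : ℝ × ℝ → ℝ} {hh : ℝ} {Dn AP : Fin 3 → ℝ × ℝ → ℝ} {β : Fin 3 → ℝ}
    (hβ0 : ∀ k, 0 ≤ β k) (hβ1 : ∀ k, β k ≤ 1)
    (hD : ∀ k, ∀ t ∈ Dl, T3 t (jj k) ≤ T3 t k → T3 t (ll k) ≤ T3 t k →
      D t ≤ Dn k t + β k * AP k t)
    {V0 V1 : Fin 3 → ℝ × ℝ → ℝ} (m0 : ∀ k, Measurable (V0 k)) (m1 : ∀ k, Measurable (V1 k))
    (n0 : ∀ k t, 0 ≤ V0 k t) (n1 : ∀ k t, 0 ≤ V1 k t)
    (b0 : ∀ k, ∃ C, ∀ t, V0 k t ≤ C) (b1 : ∀ k, ∃ C, ∀ t, V1 k t ≤ C)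
    (p0 : ∀ k, PtC a K τ S A' k hh (Dn k) (V0 k))
    (p1 : ∀ k, PtC a K τ S A' k hh (fun t => Dn k t + AP k t) (V1 k))
    {om : ℝ × ℝ → ℝ} (mT : Measurable om) (nT : ∀ t, 0 ≤ om t) (bT : ∃ C, ∀ t, om t ≤ C)
    (pT : ∀ k, TpC a K τ S A' k hh D om)
    {W0 W1 : Fin 3 → ℝ} {cT : ℝ}
    (i0 : ∀ k, ∫ t in Dl, V0 k t * M3 t ≤ W0 k) (i1 : ∀ k, ∫ t in Dl, V1 k t * M3 t ≤ W1 k)
    (iT : ∫ t in Dl, om t * M3 t ≤ cT) :
    WCost a K τ A' G D ((√2)⁻¹ * (((1 - β 0) * W0 0 + β 0 * W1 0) + ((1 - β 1) * W0 1 + β 1 * W1 1)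
      + ((1 - β 2) * W0 2 + β 2 * W1 2) + cT)) := by
  obtain ⟨f, hf⟩ : ∃ f : Fin 3 → ℝ × ℝ → ℝ, f = fun k t => (1 - β k) * V0 k t + β k * V1 k t :=
    ⟨_, rfl⟩
  have f0 : ∀ k t, 0 ≤ f k t := fun k t => by
    rw [hf]
    exact add_nonneg (mul_nonneg (sub_nonneg.2 (hβ1 k)) (n0 k t)) (mul_nonneg (hβ0 k) (n1 k t))
  have fm : ∀ k, Measurable (f k) := fun k => by
    rw [hf]
    exact ((m0 k).const_mul _).add ((m1 k).const_mul _)
  have fb : ∀ k, ∃ C, ∀ t, f k t ≤ C := fun k => by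
    obtain ⟨C0, h0⟩ := b0 k
    obtain ⟨C1, h1⟩ := b1 k
    refine ⟨(1 - β k) * C0 + β k * C1, fun t => ?_⟩
    rw [hf]
    exact add_le_add (mul_le_mul_of_nonneg_left (h0 t) (sub_nonneg.2 (hβ1 k)))
      (mul_le_mul_of_nonneg_left (h1 t) (hβ0 k))
  obtain ⟨F0, hF0⟩ := fb 0
  obtain ⟨F1, hF1⟩ := fb 1
  obtain ⟨F2, hF2⟩ := fb 2
  obtain ⟨FT, hFT⟩ := bT
  obtain ⟨ω, hω⟩ : ∃ ω : ℝ × ℝ → ℝ, ω = fun t => f 0 t + f 1 t + f 2 t + om t := ⟨_, rfl⟩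
  have hωm : Measurable ω := by
    rw [hω]
    exact (((fm 0).add (fm 1)).add (fm 2)).add mT
  have hge : ∀ k t, f k t ≤ ω t := by
    intro k t
    rw [hω]
    have e0 := f0 0 t
    have e1 := f0 1 t
    have e2 := f0 2 t
    have e3 := nT t
    fin_cases k
    · show f 0 t ≤ f 0 t + f 1 t + f 2 t + om t
      linarith
    · show f 1 t ≤ f 0 t + f 1 t + f 2 t + om t
      linarith
    · show f 2 t ≤ f 0 t + f 1 t + f 2 t + om t
      linarith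
  have hgT : ∀ t, om t ≤ ω t := by
    intro t
    rw [hω]
    have e0 := f0 0 t
    have e1 := f0 1 t
    have e2 := f0 2 t
    show om t ≤ f 0 t + f 1 t + f 2 t + om t
    linarith
  have hωb : ∀ t ∈ Dl, |ω t| ≤ F0 + F1 + F2 + FT := by
    intro t _
    have e0 := f0 0 t
    have e1 := f0 1 t
    have e2 := f0 2 t
    have e3 := nT t
    have e : ω t = f 0 t + f 1 t + f 2 t + om t := by rw [hω]
    rw [e, abs_of_nonneg (by linarith)]
    exact add_le_add (add_le_add (add_le_add (hF0 _) (hF1 _)) (hF2 _)) (hFT _)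
  refine ⟨ω, fun t => own (S (τ 0)) t, F0 + F1 + F2 + FT, hωm.aestronglyMeasurable, hωb,
    fun t ht => own_nonneg (v.nn _) ht, own_ok h v τ, ?_, ?_⟩
  · intro t ht q hq hX hG
    obtain ⟨k, hk1, hk2⟩ := ex_corner t
    have hm : 0 < √(mt t) := Real.sqrt_pos.2 mt_pos
    by_cases hT : T3 t (jj k) ≤ hh ∧ T3 t (ll k) ≤ hh
    · have key := pT k t ht hk1 hk2 hT.1 hT.2 q hq hX (G t) hG
      have := hgT t
      linarith
    · have k0 := p0 k t ht hk1 hk2 hT q hq hX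
        (Yt (fun i => a (τ i)) t q - (1 - Dn k t) * ‖a (τ 0) - q‖ ^ 2) (by linarith)
      have k1 := p1 k t ht hk1 hk2 hT q hq hX
        (Yt (fun i => a (τ i)) t q - (1 - (Dn k t + AP k t)) * ‖a (τ 0) - q‖ ^ 2) (by
          show _ + (1 - (Dn k t + AP k t)) * ‖a (τ 0) - q‖ ^ 2 ≤ _
          linarith)
      have key := comb_pt hA hm (sq_nonneg ‖a (τ 0) - q‖) (hβ0 k) (hβ1 k) (hD k t ht hk1 hk2) hG
        k0 k1
      have e : f k t = (1 - β k) * V0 k t + β k * V1 k t := by rw [hf]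
      have := hge k t
      linarith
  · have ib : ∀ {g : ℝ × ℝ → ℝ}, Measurable g → (∀ t, 0 ≤ g t) → (∃ C, ∀ t, g t ≤ C) →
        IntegrableOn (fun t => g t * M3 t) Dl := by
      intro g hg g0 ⟨C, hC⟩
      exact on_Dl hg.aestronglyMeasurable (C := C) fun t _ => by
        rw [abs_of_nonneg (g0 t)]
        exact hC t
    have J0 := fun k => ib (m0 k) (n0 k) (b0 k)
    have J1 := fun k => ib (m1 k) (n1 k) (b1 k)
    have JT := ib mT nT ⟨FT, hFT⟩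
    have If : ∀ k, IntegrableOn (fun t => f k t * M3 t) Dl := fun k => ib (fm k) (f0 k) (fb k)
    have hfk : ∀ k, ∫ t in Dl, f k t * M3 t ≤ (1 - β k) * W0 k + β k * W1 k := by
      intro k
      have e : ∀ t, f k t * M3 t = (1 - β k) * (V0 k t * M3 t) + β k * (V1 k t * M3 t) := by
        intro t
        rw [hf]
        ring
      simp only [e]
      have e2 : ∫ t in Dl, ((1 - β k) * (V0 k t * M3 t) + β k * (V1 k t * M3 t)) =
          (1 - β k) * (∫ t in Dl, V0 k t * M3 t) + β k * ∫ t in Dl, V1 k t * M3 t := by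
        rw [integral_add ((J0 k).const_mul _) ((J1 k).const_mul _), integral_const_mul,
          integral_const_mul]
      rw [e2]
      exact add_le_add (mul_le_mul_of_nonneg_left (i0 k) (sub_nonneg.2 (hβ1 k)))
        (mul_le_mul_of_nonneg_left (i1 k) (hβ0 k))
    have e4 : ∀ t, ω t * M3 t = ((f 0 t * M3 t + f 1 t * M3 t) + f 2 t * M3 t) + om t * M3 t :=
      fun t => by
        rw [hω]
        ring
    simp only [e4]
    have k1 : ∫ t in Dl, (((f 0 t * M3 t + f 1 t * M3 t) + f 2 t * M3 t) + om t * M3 t) =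
        (∫ t in Dl, ((f 0 t * M3 t + f 1 t * M3 t) + f 2 t * M3 t)) + ∫ t in Dl, om t * M3 t :=
      integral_add (((If 0).add (If 1)).add (If 2)) JT
    have k2 : ∫ t in Dl, ((f 0 t * M3 t + f 1 t * M3 t) + f 2 t * M3 t) =
        (∫ t in Dl, (f 0 t * M3 t + f 1 t * M3 t)) + ∫ t in Dl, f 2 t * M3 t :=
      integral_add ((If 0).add (If 1)) (If 2)
    have k3 : ∫ t in Dl, (f 0 t * M3 t + f 1 t * M3 t) =
        (∫ t in Dl, f 0 t * M3 t) + ∫ t in Dl, f 1 t * M3 t := integral_add (If 0) (If 1)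
    rw [k1, k2, k3]
    refine mul_le_mul_of_nonneg_left ?_ (by positivity)
    exact add_le_add (add_le_add (add_le_add (hfk 0) (hfk 1)) (hfk 2)) iT

end Pool.Agent.Helper23.MEI.J
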