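import Pool.Agent.Helper23.MEI.WJ1
import Pool.Agent.Helper78.MEI.WB7
import Pool.Agent.Helper60.MEI.R8T

/-!
# Project MEI (M2), w-term: tables with twelve rows, the bit of the apex in separate tables

`t12ck P As b p0 p1 Q` = row contract of a table with the twelve vertices, bit `b`;
`ptC_of_cor` = the pointwise certificate of a corner from a table (free value `G`);
`Dn_ge`, `Dn_ge1` = the deficit without / with the apex through the rows.
-/

set_option autoImplicit false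

namespace Pool.Agent.Helper23.MEI.J

open Set Metric MeasureTheory Helper80.CW Helper82.CW Helper14.CW Helper93.MEI Helper82.M2
open Helper14.MEI2 Pool.Agent.Helper52.MEI Pool.Agent.Helper73.MEI Helper37.MEI Helper41.MEI
open Helper33.MEI (Wi Dl tx M3 mt mt_pos M3_pos Dl_meas)
open Pool.Agent.Helper31.SR
open Helper78.MEI
open Helper60.R7 (jj ll ch ch_fst ch_snd ch_meas ex_corner U U_pos mtx mt_mtx mt_ch T3_sum T3_pos'
  cap_ch own_ch int_ch M3_ch)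
open Helper60.R8 (Row Ld Cor P3 zR zL z3 afr sS)
open Pool.Agent.Helper55.Apex (nc)
open scoped RealInnerProductSpace ENNReal

/-! ### the row contract -/

/-- the rows of the vertices, bit `b`, from the vertex `v` on -/
def r12ck (P : Par) (As : List Alt) (b : ℕ) : ℕ → List Row → Bool
  | _, [] => true
  | v, R :: Rs => rowck P As v b R && r12ck P As b (v + 1) Rs

/-- **row contract**, twelve rows -/
def t12ck (P : Par) (As : List Alt) (b p0 p1 : ℕ) (Q : Cor) : Bool :=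
  Nat.beq Q.rows.length 12 && r12ck P As b 0 Q.rows && (As.all fun A => A.ok p0 p1) &&
    Nat.ble Q.nl As.length && Nat.ble Q.ne 0 && Nat.ble p0 p1 && Nat.ble p1 U6

theorem r12ck_get {P : Par} {As : List Alt} {b : ℕ} : ∀ {i0 : ℕ} {Rs : List Row},
    r12ck P As b i0 Rs = true → ∀ i < Rs.length, rowck P As (i0 + i) b (Rs.getD i zR) = true
  | _, [], _, i, hi => by simp at hi
  | i0, R :: Rs, h, i, hi => by
    rw [r12ck, Bool.and_eq_true] at h
    cases i with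
    | zero => simpa using h.1
    | succ i =>
      have := r12ck_get h.2 i (by simpa using hi)
      rw [show i0 + 1 + i = i0 + (i + 1) by omega] at this
      simpa using this

section
variable {P : Par} {As : List Alt} {b p0 p1 : ℕ} {Q : Cor} (h : t12ck P As b p0 p1 Q = true)
include h

theorem t12ck_iff : Q.rows.length = 12 ∧ (∀ v < 12, rowck P As v b (Q.rows.getD v zR) = true) ∧
    (∀ i < As.length, (As.getD i zA).ok p0 p1 = true) ∧ Q.nl ≤ As.length ∧ Q.ne = 0 ∧ p0 ≤ p1 ∧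
    p1 ≤ U6 := by
  unfold t12ck at h
  simp only [Bool.and_eq_true, Nat.ble_eq, Nat.beq_eq, List.all_eq_true] at h
  obtain ⟨⟨⟨⟨⟨⟨h1, h2⟩, h3⟩, h4⟩, h5⟩, h6⟩, h7⟩ := h
  refine ⟨h1, fun v hv => ?_, fun i hi => ?_, h4, Nat.le_zero.1 h5, h6, h7⟩
  · have := r12ck_get h2 v (by omega)
    rwa [zero_add] at this
  · rw [List.getD_eq_getElem _ _ hi]
    exact h3 _ (List.getElem_mem hi)

/-- violations and level through the rows -/
theorem row12_S (hX : 0 < P.X) {s x y z : ℝ} (hs : 0 ≤ s) (hx : 0 ≤ x) (hy : 0 ≤ y) (hz : 0 ≤ z)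
    (hsum : s + x + y + z ≤ (P.X : ℝ) / U6) :
    x ≤ ∑ i ∈ Finset.range Q.rows.length, lam12 ((P.X : ℝ) / U6) s x y z i *
      (((Q.rows.getD i zR).S.k : ℝ) / U6) ∧
    y ≤ ∑ i ∈ Finset.range Q.rows.length, lam12 ((P.X : ℝ) / U6) s x y z i *
      (((Q.rows.getD i zR).S.j : ℝ) / U6) ∧
    z ≤ ∑ i ∈ Finset.range Q.rows.length, lam12 ((P.X : ℝ) / U6) s x y z i *
      (((Q.rows.getD i zR).S.l : ℝ) / U6) ∧
    s ≤ ∑ i ∈ Finset.range Q.rows.length, lam12 ((P.X : ℝ) / U6) s x y z i *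
      (((Q.rows.getD i zR).s : ℝ) / U6) := by
  have hU := U6_pos
  have hXp : (0 : ℝ) < (P.X : ℝ) / U6 := _root_.div_pos (Nat.cast_pos.2 hX) hU
  have hL := lam12_nonneg hXp hs hx hy hz hsum
  obtain ⟨hlen, r0, -⟩ := t12ck_iff h
  have un : ∀ v R, rowck P As v b R = true → lv P.X (sd v) R.s = true ∧
      lv P.X (xd v) R.S.k = true ∧ lv P.X (yd v) R.S.j = true ∧ lv P.X (zd v) R.S.l = true := by
    intro v R hR
    unfold rowck at hR
    simp only [Bool.and_eq_true] at hR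
    exact ⟨hR.1.1.1.1, hR.1.1.1.2, hR.1.1.2, hR.1.2⟩
  rw [hlen]
  refine ⟨?_, ?_, ?_, ?_⟩
  · refine le_trans (le_of_eq (lam12_x hXp).symm) (Finset.sum_le_sum fun v hv =>
      mul_le_mul_of_nonneg_left ?_ (hL v))
    rw [x12_xd (Finset.mem_range.1 hv)]
    exact lv_le (un _ _ (r0 v (Finset.mem_range.1 hv))).2.1
  · refine le_trans (le_of_eq (lam12_y hXp).symm) (Finset.sum_le_sum fun v hv =>
      mul_le_mul_of_nonneg_left ?_ (hL v))
    rw [y12_yd (Finset.mem_range.1 hv)]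
    exact lv_le (un _ _ (r0 v (Finset.mem_range.1 hv))).2.2.1
  · refine le_trans (le_of_eq (lam12_z hXp).symm) (Finset.sum_le_sum fun v hv =>
      mul_le_mul_of_nonneg_left ?_ (hL v))
    rw [z12_zd (Finset.mem_range.1 hv)]
    exact lv_le (un _ _ (r0 v (Finset.mem_range.1 hv))).2.2.2
  · refine le_trans (le_of_eq (lam12_s hXp).symm) (Finset.sum_le_sum fun v hv =>
      mul_le_mul_of_nonneg_left ?_ (hL v))
    rw [s12_sd (Finset.mem_range.1 hv)]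
    exact lv_le (un _ _ (r0 v (Finset.mem_range.1 hv))).1

theorem row12_one (hX : 0 < P.X) {s x y z : ℝ} :
    ∑ i ∈ Finset.range Q.rows.length, lam12 ((P.X : ℝ) / U6) s x y z i = 1 := by
  rw [(t12ck_iff h).1]
  exact lam12_one (_root_.div_pos (Nat.cast_pos.2 hX) U6_pos)

theorem t12_th {li : ℕ} (hli : li < Q.nl) : (As.getD li zA).th ≤ U6 := by
  obtain ⟨-, -, hok, hnl, -⟩ := t12ck_iff h
  have := hok li (by omega)
  unfold Alt.ok at this
  simp only [Bool.and_eq_true, Nat.ble_eq] at this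
  exact this.1.1

/-- the demands through the loads -/
theorem row12_D {L : ℕ → ℝ} (hL : ∀ v, 0 ≤ L v) {x y : ℝ}
    (hx : 0 ≤ x) (hy : 0 ≤ y) (hxy : x + y ≤ 1) {li : ℕ} (hli : li < Q.nl) :
    ∑ v ∈ Finset.range 12, L v * dem P (As.getD li zA) v b x y ≤
      ∑ i ∈ Finset.range Q.rows.length, L i * afr ((Q.rows.getD i zR).ls.getD li zL).D x y := by
  obtain ⟨hlen, r0, hok, hnl, -⟩ := t12ck_iff h
  have un : ∀ v R, rowck P As v b R = true → altsck P v b As R.ls = true := by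
    intro v R hR
    unfold rowck at hR
    simp only [Bool.and_eq_true] at hR
    exact hR.2
  rw [hlen]
  refine Finset.sum_le_sum fun v hv => mul_le_mul_of_nonneg_left ?_ (hL v)
  have hv' := Finset.mem_range.1 hv
  have q0 := vck_le (t12_th h hli) (altsck_get (un _ _ (r0 v hv')) li (by omega)) hx hy hxy
  unfold afr
  exact q0

end

/-! ### the pointwise certificate -/

/-- **the pointwise certificate of a corner from a table** -/
theorem ptC_of_cor {a : Fin 4 → E3} {σ : Measure (E3 × E3)} {K : Set E3} {S : Fin 4 → ℝ}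
    {c : Fin 4 → E3} (h : CN K σ a c) (v : Viol K a S)
    (τ : Equiv.Perm (Fin 4)) {A c0 c1 : ℕ} {Sm d0 d1 : ℝ} (hC : IsC Sm d0 d1)
    (hSm : ∀ k, S k ≤ Sm) (hd : 0 ≤ d1) (hd3 : 3 * d1 * (1 + S (τ 0)) ≤ d0)
    (hd0 : (c0 : ℝ) / U ≤ d0) (hd1 : d1 ≤ (c1 : ℝ) / U) {Q : Cor} (hQ : Q.ok A c0 c1 = true)
    (hne : Q.ne = 0) {k : Fin 3}
    {lam : ℕ → ℝ} (h0 : ∀ i, 0 ≤ lam i)
    (h1 : ∑ i ∈ Finset.range Q.rows.length, lam i = 1)
    (hSk : S (τ k.succ) ≤ ∑ i ∈ Finset.range Q.rows.length,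
      lam i * (((Q.rows.getD i zR).S.k : ℝ) / U))
    (hSj : S (τ (jj k).succ) ≤ ∑ i ∈ Finset.range Q.rows.length,
      lam i * (((Q.rows.getD i zR).S.j : ℝ) / U))
    (hSl : S (τ (ll k).succ) ≤ ∑ i ∈ Finset.range Q.rows.length,
      lam i * (((Q.rows.getD i zR).S.l : ℝ) / U))
    (hs : S (τ 0) ≤ sS Q.rows lam) {Dd : ℝ × ℝ → ℝ}
    (hDd : ∀ t ∈ Dl, T3 t (jj k) ≤ T3 t k → T3 t (ll k) ≤ T3 t k → ∀ li < Q.nl,
      Dd t ≤ ∑ i ∈ Finset.range Q.rows.length, lam i *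
        afr ((Q.rows.getD i zR).ls.getD li zL).D (T3 t (jj k)) (T3 t (ll k))) :
    PtC a K τ S ((A : ℝ) / U) k ((Q.h : ℝ) / U) Dd (fun t => Q.f lam (ch k t)) := by
  intro t ht hk1 hk2 hnt q hq hX G hG
  have hU := U_pos
  have h' := h.perm τ
  have v' := viol_perm v τ
  have hgr := gram_of_dist h'.ha
  have hm : 0 < √(mt t) := Real.sqrt_pos.2 mt_pos
  have hm1 : √(mt t) ≤ 1 := sqrt_mt_le ht
  have hp := fun k => T3_pos' ht k
  have hsum := T3_sum k t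
  have hcap := cap_ch k t fun p => S (τ p.succ)
  have hmm : √(mt t) ^ 2 = mtx (T3 t (jj k)) (T3 t (ll k)) := by
    have h := mt_ch k t
    rw [mt_mtx (ch k t), ch_fst, ch_snd] at h
    rw [Real.sq_sqrt (mt_pos (t := t)).le]
    exact h.symm
  have hfk : Q.f lam (T3 t (jj k), T3 t (ll k)) ≤ Q.f lam (ch k t) := by
    have e : ch k t = (T3 t (jj k), T3 t (ll k)) := by
      rw [← ch_fst, ← ch_snd]
    rw [e]
  have hpq := h'.hp q hq
  have h19 : ‖a (τ 0) - q‖ ^ 2 ≤ 19 / 16 := by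
    have h1 := h.ap hq (τ 0)
    unfold Qv at h1
    rw [norm_sub_rev]
    linarith
  have hw1 : ‖a (τ 0) - q‖ ^ 2 ≤ 1 + S (τ 0) := by
    have h1 := v.le (τ 0) q hq
    unfold Qv at h1
    rw [norm_sub_rev]
    linarith
  refine Cor.pt hQ h0 h1 (hp (jj k)) (hp (ll k)) (by linarith) (by linarith) hnt
    hSk hSj hSl hs hd0 hd1 hd hd3 hmm hm (own_nonneg (v.nn _) ht)
    (own_le_s (S (τ 0)) t) (own_ch ht k) (sq_nonneg _) hw1 hm1 hcap ?_
    (fun ei hei => by omega) ?_ hX hfk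
  · intro li hli
    have k1 := hDd t ht hk1 hk2 li hli
    have k2 := mul_le_mul_of_nonneg_right (sub_le_sub_left k1 1) (sq_nonneg ‖a (τ 0) - q‖)
    have k3 : 0 ≤ ∑ i ∈ Finset.range Q.rows.length,
        lam i * afr ((Q.rows.getD i zR).ls.getD li zL).X (T3 t (jj k)) (T3 t (ll k)) := by
      refine Finset.sum_nonneg fun i _ => mul_nonneg (h0 i) ?_
      have e1 := hp (jj k)
      have e2 := hp (ll k)
      have e3 := hp k
      have e4 : 0 ≤ 1 - T3 t (jj k) - T3 t (ll k) := by linarith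
      unfold afr
      positivity
    linarith
  · intro μ hμ hμx hμy
    have hM : ∀ p, μ ≤ T3 t p := by
      intro p
      have hμk : μ ≤ T3 t k := hμx.trans hk1
      fin_cases k
      · fin_cases p
        · exact hμk
        · exact hμy
        · exact hμx
      · fin_cases p
        · exact hμx
        · exact hμk
        · exact hμy
      · fin_cases p
        · exact hμx
        · exact hμy
        · exact hμk
    have hS := Yt_cw (a := fun i => a (τ i)) (t := t) hgr hC hpq h19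
      (V := fun k => S (τ k.succ)) (fun k => v.nn _) (fun k => hSm _) hμ hM
      (v'.le 1 q hq) (v'.le 2 q hq) (v'.le 3 q hq)
    have hT : T3 t 0 + T3 t 1 + T3 t 2 = 1 := by
      show t.1 + t.2 + (1 - t.1 - t.2) = 1
      ring
    have r1 := mul_le_mul_of_nonneg_left (le_pp (‖a (τ 0) - q‖ ^ 2 - S (τ 1))) (hμ.trans (hM 0))
    have r2 := mul_le_mul_of_nonneg_left (le_pp (‖a (τ 0) - q‖ ^ 2 - S (τ 2))) (hμ.trans (hM 1))
    have r3 := mul_le_mul_of_nonneg_left (le_pp (‖a (τ 0) - q‖ ^ 2 - S (τ 3))) (hμ.trans (hM 2))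
    have e2 : (T3 t 0 + T3 t 1 + T3 t 2) * ‖a (τ 0) - q‖ ^ 2 = ‖a (τ 0) - q‖ ^ 2 := by
      rw [hT, one_mul]
    refine le_trans ?_ hS
    show -(T3 t 0 * S (τ 1) + T3 t 1 * S (τ 2) + T3 t 2 * S (τ 3)) + _ + _ ≤
      (T3 t 0 * pp (‖a (τ 0) - q‖ ^ 2 - S (τ 1)) +
      T3 t 1 * pp (‖a (τ 0) - q‖ ^ 2 - S (τ 2)) + T3 t 2 * pp (‖a (τ 0) - q‖ ^ 2 - S (τ 3))) +
      2 * μ * ((d0 - d1 * ‖a (τ 0) - q‖ ^ 2) * √(‖a (τ 0) - q‖ ^ 2))
    nlinarith

/-! ### the deficit through the rows -/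

/-- the demands of the bit `0` in closed form -/
theorem dem_sum0 {L : ℕ → ℝ} (h1 : ∑ v ∈ Finset.range 12, L v = 1) (P : Par) (A : Alt) (x y : ℝ) :
    ∑ v ∈ Finset.range 12, L v * dem P A v 0 x y =
      (P.K : ℝ) / U6 * ((1 - (A.th : ℝ) / U6) * nh L P.nI + (A.th : ℝ) / U6 * (x + y)
        + nh L P.nJ * x + nh L P.nL * y)
      + ((P.c0 : ℝ) / U6 + (P.c1 : ℝ) / U6 * (nh L P.nI + nh L P.nJ + nh L P.nL)) * (x + y) := by
  have h := dem_sum h1 P A 0 x y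
  have e : ∀ v, L v * ((1 - 0) * dem P A v 0 x y + 0 * dem P A v 1 x y) =
      L v * dem P A v 0 x y := fun v => by ring
  simp only [e] at h
  rw [h]
  ring

theorem dem_sum1 {L : ℕ → ℝ} (h1 : ∑ v ∈ Finset.range 12, L v = 1) (P : Par) (A : Alt) (x y : ℝ) :
    ∑ v ∈ Finset.range 12, L v * dem P A v 1 x y =
      (P.K : ℝ) / U6 * ((1 - (A.th : ℝ) / U6) * nh L P.nI + (A.th : ℝ) / U6 * (x + y)
        + nh L P.nJ * x + nh L P.nL * y)
      + ((P.c0 : ℝ) / U6 + (P.c1 : ℝ) / U6 * (nh L P.nI + nh L P.nJ + nh L P.nL)) * (x + y)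
      + (P.hl : ℝ) / U6 * ((A.ax : ℝ) / U6 * x + (A.ay : ℝ) / U6 * y) := by
  have h := dem_sum h1 P A 1 x y
  have e : ∀ v, L v * ((1 - 1) * dem P A v 0 x y + 1 * dem P A v 1 x y) =
      L v * dem P A v 1 x y := fun v => by ring
  simp only [e] at h
  rw [h]
  ring

/-- the deficit of nodes and arcs, in the numbers of a corner -/
noncomputable def dnn (cN ω φ ni nj nl X Y : ℝ) : ℝ :=
  2 / 3 * (min (X + Y) ni + nj * X + nl * Y) + φ * (2 * ω + 2 / 3 * cN) * (X + Y)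

section
variable {P : Par} {A' ρ cN s χ ω g0 g1 φl a0 a1 : ℝ} (hP : POk P A' ρ cN s χ ω g0 g1 φl a0 a1)
  {S0 Si Sj Sk : ℝ} (h0 : 0 ≤ S0) (hi : 0 ≤ Si) (hj : 0 ≤ Sj) (hk : 0 ≤ Sk)
  (hX : S0 + Si + Sj + Sk ≤ (P.X : ℝ) / U6) {ni nj nl : ℝ} (ri : 0 ≤ ni) (rj : 0 ≤ nj)
  (rl : 0 ≤ nl) (ci : ni ≤ cN) (cj : nj ≤ cN) (cl : nl ≤ cN)
  (si : ni ^ 2 ≤ 2 * S0 * (1 + ni / 2) ^ 2) (sj : nj ^ 2 ≤ 2 * S0 * (1 + nj / 2) ^ 2)
  (sl : nl ^ 2 ≤ 2 * S0 * (1 + nl / 2) ^ 2) (ti : ni ^ 2 ≤ 2 * Si * (1 + ni / 2) ^ 2)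
  (tj : nj ^ 2 ≤ 2 * Sj * (1 + nj / 2) ^ 2) (tl : nl ^ 2 ≤ 2 * Sk * (1 + nl / 2) ^ 2)
  {φ : ℝ} (hφu : φ ≤ a0 + a1 * (ni + nj + nl)) {X Y : ℝ} (X0 : 0 ≤ X) (Y0 : 0 ≤ Y)
include hP h0 hi hj hk hX ri rj rl ci cj cl si sj sl ti tj tl hφu X0 Y0

/-- **nodes and arcs through the rows** -/
theorem Dn_ge {A : Alt} (hth : A.th ≤ U6) : dnn cN ω φ ni nj nl X Y ≤
    ∑ v ∈ Finset.range 12, lam12 ((P.X : ℝ) / U6) S0 Si Sj Sk v * dem P A v 0 X Y := by
  have hU := U6_pos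
  have hXp : (0 : ℝ) < (P.X : ℝ) / U6 := _root_.div_pos (Nat.cast_pos.2 hP.Xp) hU
  have one := lam12_one (s := S0) (x := Si) (y := Sj) (z := Sk) hXp
  rw [dem_sum0 one]
  have m1' := leak_lin ri ci si ti hP.g10 hP.leak
  have m2' := leak_lin rj cj sj tj hP.g10 hP.leak
  have m3' := leak_lin rl cl sl tl hP.g10 hP.leak
  obtain ⟨k1, k2, k3⟩ := nh_ge hP.nok hP.Xp h0 hi hj hk hX
  have m1 := m1'.trans k1
  have m2 := m2'.trans k2
  have m3 := m3'.trans k3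
  obtain ⟨NI, hNI⟩ : ∃ n, n = nh (lam12 ((P.X : ℝ) / U6) S0 Si Sj Sk) P.nI := ⟨_, rfl⟩
  obtain ⟨NJ, hNJ⟩ : ∃ n, n = nh (lam12 ((P.X : ℝ) / U6) S0 Si Sj Sk) P.nJ := ⟨_, rfl⟩
  obtain ⟨NL, hNL⟩ : ∃ n, n = nh (lam12 ((P.X : ℝ) / U6) S0 Si Sj Sk) P.nL := ⟨_, rfl⟩
  rw [← hNI] at m1
  rw [← hNJ] at m2
  rw [← hNL] at m3
  rw [← hNI, ← hNJ, ← hNL]
  obtain ⟨θ, hθ⟩ : ∃ θ, θ = (A.th : ℝ) / U6 := ⟨_, rfl⟩
  have θ0 : 0 ≤ θ := by rw [hθ]; positivity
  have θ1 : θ ≤ 1 := by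
    rw [hθ, div_le_one hU]
    exact_mod_cast hth
  rw [← hθ]
  -- nodes
  have d1 : min (X + Y) ni ≤ (1 - θ) * NI + θ * (X + Y) := by
    have q1 := min_le_left (X + Y) ni
    have q2 := (min_le_right (X + Y) ni).trans m1
    have q3 := mul_le_mul_of_nonneg_left q1 θ0
    have q4 := mul_le_mul_of_nonneg_left q2 (sub_nonneg.2 θ1)
    linarith
  have d2 := mul_le_mul_of_nonneg_right m2 X0
  have d3 := mul_le_mul_of_nonneg_right m3 Y0
  have e1 : 0 ≤ min (X + Y) ni := le_min (by linarith) ri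
  have e2 : 0 ≤ nj * X := mul_nonneg rj X0
  have e3 : 0 ≤ nl * Y := mul_nonneg rl Y0
  have p1 : 2 / 3 * (min (X + Y) ni + nj * X + nl * Y) ≤
      (P.K : ℝ) / U6 * ((1 - θ) * NI + θ * (X + Y) + NJ * X + NL * Y) :=
    mul_le_mul hP.K2 (by linarith) (by linarith) (by positivity)
  -- arcs
  have hω : 0 ≤ 2 * ω + 2 / 3 * cN := by
    have := hP.ω0
    have := hP.cN0
    positivity
  have p2 : φ * (2 * ω + 2 / 3 * cN) ≤
      (P.c0 : ℝ) / U6 + (P.c1 : ℝ) / U6 * (NI + NJ + NL) := by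
    have q1 := mul_le_mul_of_nonneg_right hφu hω
    have q2 : (a1 * (2 * ω + 2 / 3 * cN)) * (ni + nj + nl) ≤
        (P.c1 : ℝ) / U6 * (NI + NJ + NL) := by
      refine mul_le_mul hP.c1 (by linarith) (by linarith) (by positivity)
    have q3 := hP.c0
    linarith
  have p3 := mul_le_mul_of_nonneg_right p2 (show 0 ≤ X + Y by linarith)
  unfold dnn
  linarith

/-- **with the apex** -/
theorem Dn_ge1 {A : Alt} (hth : A.th ≤ U6) {lam AB : ℝ} (hl : lam ≤ 1 - φl) (hAB0 : 0 ≤ AB)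
    (hAB : AB ≤ (A.ax : ℝ) / U6 * X + (A.ay : ℝ) / U6 * Y) :
    dnn cN ω φ ni nj nl X Y + lam / 2 * AB ≤
    ∑ v ∈ Finset.range 12, lam12 ((P.X : ℝ) / U6) S0 Si Sj Sk v * dem P A v 1 X Y := by
  have hU := U6_pos
  have hXp : (0 : ℝ) < (P.X : ℝ) / U6 := _root_.div_pos (Nat.cast_pos.2 hP.Xp) hU
  have one := lam12_one (s := S0) (x := Si) (y := Sj) (z := Sk) hXp
  have k := Dn_ge hP h0 hi hj hk hX ri rj rl ci cj cl si sj sl ti tj tl hφu X0 Y0 hth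
  rw [dem_sum0 one] at k
  rw [dem_sum1 one]
  have hlam : lam / 2 ≤ (P.hl : ℝ) / U6 := by
    have := hP.hl
    linarith
  have q1 : lam / 2 * AB ≤ (P.hl : ℝ) / U6 * ((A.ax : ℝ) / U6 * X + (A.ay : ℝ) / U6 * Y) :=
    mul_le_mul hlam hAB hAB0 (by positivity)
  linarith

end

end Pool.Agent.Helper23.MEI.J
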