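import Pool.Agent.Helper23.MEI.WJ2

/-!
# Project MEI (M2), w-term: the cost of a face from the tables

`wcost_face`: a placed body, any losses `l`, any share `φ` in the range of `POk`, one table without
the apex and one table per class of positions of the apex, tips passed through.
-/

set_option autoImplicit false

namespace Pool.Agent.Helper23.MEI.J

open Set Metric MeasureTheory Helper80.CW Helper82.CW Helper14.CW Helper93.MEI Helper82.M2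
open Helper14.MEI2 Pool.Agent.Helper52.MEI Pool.Agent.Helper73.MEI Helper37.MEI Helper41.MEI
open Helper33.MEI (Wi Dl tx M3 mt mt_pos M3_pos Dl_meas)
open Pool.Agent.Helper31.SR
open Helper78.MEI
open Helper60.R7 (jj ll ch ch_fst ch_snd ch_meas ex_corner U U_pos mtx mt_mtx mt_ch T3_sum T3_pos'
  cap_ch own_ch int_ch M3_ch)
open Helper60.R8 (Row Ld Cor P3 zR zL z3 afr sS)
open Pool.Agent.Helper55.Apex (nc)
open Pool.Agent.Helper55.Mass (LN LN_nonneg vv vv_nonneg vv_le Id)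
open Pool.Agent.Helper55.ApexP (PN alP alP_nonneg)
open Pool.Agent.Helper73.MEI.SideP (flP)
open Pool.Agent.Helper73.MEI.ZEl (coords)
open Pool.Agent.Helper96.Kap (kap)
open scoped RealInnerProductSpace ENNReal

theorem jj_ne (k : Fin 3) : k ≠ jj k ∧ k ≠ ll k ∧ jj k ≠ ll k := by
  fin_cases k <;> decide

theorem TN_ch (N : Fin 3 → Fin 3 → ℝ) (k : Fin 3) :
    SideP.TN N = nc N k + nc N (jj k) + nc N (ll k) := by
  have hTs : SideP.TN N = nc N 0 + nc N 1 + nc N 2 := rfl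
  rw [hTs]
  fin_cases k
  · show nc N 0 + nc N 1 + nc N 2 = nc N 0 + nc N 2 + nc N 1
    ring
  · show nc N 0 + nc N 1 + nc N 2 = nc N 1 + nc N 0 + nc N 2
    ring
  · show nc N 0 + nc N 1 + nc N 2 = nc N 2 + nc N 0 + nc N 1
    ring

/-- the integral of the function of a table in a chart -/
theorem cor_int {Q : Cor} {A c0 c1 : ℕ} (hQ : Q.ok A c0 c1 = true) {lam : ℕ → ℝ}
    (h0 : ∀ i, 0 ≤ lam i) (k : Fin 3) :
    ∫ t in Dl, Q.f lam (ch k t) * M3 t ≤ Q.W lam := by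
  have h := int_ch k fun t => Q.f lam t * M3 t
  simp only [M3_ch] at h
  rw [h]
  exact Cor.f_int hQ h0

variable {a : Fin 4 → E3} {K : Set E3} {S : Fin 4 → ℝ} {σ : Measure (E3 × E3)}
  {c : Fin 4 → E3} {z : Fin 4 → Fin 4 → E3} {l : Fin 3 → Bool → Bool → E3 × E3 → ℝ}

/-- the relative deficit of the corner `k` -/
noncomputable def bk (a' : Fin 4 → E3) (cN : ℝ) (x : E3) (k : Fin 3) : ℝ :=
  bet (Zd (2 / 3 * cN) (-bar a' 0 x) (b3 a' x)) (b3 a' x (jj k)) (b3 a' x (ll k))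

/-- the weight of the apex at the corner `k` -/
noncomputable def abk (a' : Fin 4 → E3) (N : Fin 3 → Fin 3 → ℝ) (ζp : Fin 3 → ℝ) (x : E3)
    (k : Fin 3) (t : ℝ × ℝ) : ℝ :=
  alP N ζp t * (pp (b3 a' x (jj k)) + pp (b3 a' x (ll k)))

theorem bk_sum {a' : Fin 4 → E3} (ha : ∀ i j, i ≠ j → dist (a' i) (a' j) = 1) {x : E3}
    (hx : Pl a' x) {cN s : ℝ} (h0 : 0 ≤ cN) (h1 : 2 / 3 * cN ≤ 1 / 10) (hq : Qv a' 0 x ≤ s)
    (hs : s ≤ 11 / 1000) : (∀ k, 0 ≤ bk a' cN x k) ∧ (∀ k, bk a' cN x k ≤ 1) ∧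
      bk a' cN x 0 + bk a' cN x 1 + bk a' cN x 2 ≤ 17 / 10 := by
  have hg := gram_of_dist ha
  refine ⟨fun k => bet_nonneg _ _ _, fun k => bet_le_one (Zd_body hg hx (by linarith)
    (jj_ne k).2.2), ?_⟩
  obtain ⟨cf, -, -⟩ := coords ha hx (S := fun k => Qv a' k.succ x) le_rfl le_rfl le_rfl
  have e0 : b3 a' x 0 = bar a' 1 x := rfl
  have e1 : b3 a' x 1 = bar a' 2 x := rfl
  have e2 : b3 a' x 2 = bar a' 3 x := rfl
  have p1 := bar0_pair hg hx (k := 1) (by decide)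
  have p2 := bar0_pair hg hx (k := 2) (by decide)
  have p3 := bar0_pair hg hx (k := 3) (by decide)
  have key := sum_bet (e := -bar a' 0 x) (c := 2 / 3 * cN) (s := s) (b := b3 a' x)
    (by rw [b3_sum hg x]; ring) (by rw [e0, e1]; linarith) (by rw [e0, e2]; linarith)
    (by rw [e1, e2]; linarith) (by linarith) h1
    (by
      rw [e0, e1, e2]
      have : (bar a' 1 x) ^ 2 + (bar a' 2 x) ^ 2 + (bar a' 3 x) ^ 2 + bar a' 1 x * bar a' 2 x +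
        bar a' 1 x * bar a' 3 x + bar a' 2 x * bar a' 3 x =
        ((bar a' 1 x) ^ 2 + (bar a' 2 x) ^ 2 + (bar a' 3 x) ^ 2 +
        (bar a' 1 x + bar a' 2 x + bar a' 3 x) ^ 2) / 2 := by ring
      rw [this, cf]
      linarith) hs
  have f0 : bk a' cN x 0 = bet (Zd (2 / 3 * cN) (-bar a' 0 x) (b3 a' x)) (b3 a' x 1)
      (b3 a' x 2) := by
    show bet _ (b3 a' x 2) (b3 a' x 1) = _
    unfold bet
    rw [add_comm (pp (b3 a' x 2))]
  have f1 : bk a' cN x 1 = bet (Zd (2 / 3 * cN) (-bar a' 0 x) (b3 a' x)) (b3 a' x 0)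
      (b3 a' x 2) := rfl
  have f2 : bk a' cN x 2 = bet (Zd (2 / 3 * cN) (-bar a' 0 x) (b3 a' x)) (b3 a' x 0)
      (b3 a' x 1) := rfl
  rw [f0, f1, f2]
  exact key

/-- **the deficit at the corner `k`** -/
theorem DM_corner [IsFiniteMeasure σ] (h : CN K σ a c) (v : Viol K a S) (hz : CV a K z)
    (τ : Equiv.Perm (Fin 4)) (hl : Lok a l) {A' ρ cN s χ ω : ℝ} (hA0 : 0 < A') (hρ0 : 0 < ρ)
    (hcN2 : cN ≤ 1 / 2) (hχ0 : 0 ≤ χ) (hχs : 3 / 2 + 2 * s ≤ χ ^ 2) (hω0 : 0 ≤ ω)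
    (hωχ : (1 - ω) * χ ≤ 1)
    (hMρ : ∀ p k, k ≠ p → MA σ a l τ p k ≤ ρ)
    {x : E3} (hx : x ∈ K) {N : Fin 3 → Fin 3 → ℝ}
    (hNd : N = NM (fun i => a (τ i)) (fun i j => z (τ i) (τ j)))
    {ζp : Fin 3 → ℝ} (hζp : ∀ k, 0 < ζp k)
    (hζ : ∀ k, zc (fun i => a (τ i)) N x k ≤ ζp k)
    {φ lam : ℝ} (hφ : 0 < φ)
    (hF : ∀ p, ρ ≤ φ * (A' * Id (flP (PN N) p)))
    (hl0 : 0 ≤ lam) (hl1 : lam ≤ 1 - φ)
    (hcN : ∀ m, nc N m ≤ cN) (hS : ∀ i, S i ≤ s) {t : ℝ × ℝ} (ht : t ∈ Dl) (k : Fin 3) :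
    DM A' N (zc (fun i => a (τ i)) N x) ζp lam
        (fun p t => φ * flP (PN N) p t)
        (fun p t => kap N (vv t) p) (fun _ => 0) (MB σ a l τ)
        (fun j => 1 / qM (fun i => a (τ i)) (fun i j => z (τ i) (τ j)) j)
        (fun p => Pool.Agent.Helper31.SR.am σ a l (τ 0) (τ p.succ)) t ≤
      dnn cN ω φ (nc N k) (nc N (jj k)) (nc N (ll k)) (T3 t (jj k)) (T3 t (ll k))
        + bk (fun i => a (τ i)) cN x k * (lam / 2 * abk (fun i => a (τ i)) N ζp x k t) := by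
  have h' := h.perm τ
  have v' := viol_perm v τ
  have hz' := hz.perm τ
  have hN : ∀ k m, 0 ≤ N k m := fun k m => by
    rw [hNd]
    exact NM_nonneg h' v' hz' k m
  have hcol : ∀ m, nc N m ≤ 9 / 10 := fun m => by
    rw [hNd]
    exact nc_le h' v' hz' m
  have hc : (9 / 10 : ℝ) < 1 := by norm_num
  obtain ⟨n1, n2, n3⟩ := jj_ne k
  have b1 := DM_bet h v hz τ (A' := A') hA0 hl (ρ := fun _ => ρ) (β := fun _ => 0)
    (fun _ => hρ0) hMρ hx hNd rfl hζp hζ (φ := φ) (lam := lam) hφ hl0 hl1 (fun _ => le_rfl)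
    (fun _ => zero_le_one)
    (fun p => by
      rw [zero_mul]
      exact mul_nonneg hA0.le (Id_kap_nonneg hN hc hcol p))
    (fun p => by
      rw [sub_zero, one_mul]
      exact hF p)
    hcN hcN2 hS hχ0 hχs hω0 hωχ (η := 0) le_rfl (dm := fun _ => 0)
    (fun _ => by rw [zero_mul])
    (Ca := φ * (2 * ω + 0 + 2 / 3 * cN)) le_rfl (Or.inl fun _ => rfl) (Dl_Sim ht) n1 n2 n3
  simp only [sub_zero, add_zero] at b1
  refine b1.trans (le_of_eq ?_)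
  rw [vv_T3]
  unfold dnn bk abk
  ring

section
variable [IsFiniteMeasure σ] (h : CN K σ a c) (v : Viol K a S) (hz : CV a K z)
    (τ : Equiv.Perm (Fin 4)) (hl : Lok a l) {P : Par} {A c0 c1 : ℕ}
    {ρ cN s χ ω g0 g1 φl a0 a1 : ℝ}
    (hP : POk P ((A : ℝ) / U) ρ cN s χ ω g0 g1 φl a0 a1) (hcN10 : 2 / 3 * cN ≤ 1 / 10)
    (hs1 : s ≤ 11 / 1000)
    (hMρ : ∀ p k, k ≠ p → MA σ a l τ p k ≤ ρ)
    {x : E3} (hx : x ∈ K) {N : Fin 3 → Fin 3 → ℝ}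
    (hNd : N = NM (fun i => a (τ i)) (fun i j => z (τ i) (τ j)))
    {ζp : Fin 3 → ℝ} (hζp : ∀ k, 0 < ζp k)
    (hζ : ∀ k, zc (fun i => a (τ i)) N x k ≤ ζp k)
    {φ lam : ℝ} (hφ : 0 < φ) (hφl : φl ≤ φ) (hφu : φ ≤ a0 + a1 * SideP.TN N)
    (hF : ∀ p, ρ ≤ φ * ((A : ℝ) / U * Id (flP (PN N) p)))
    (hl0 : 0 ≤ lam) (hl1 : lam ≤ 1 - φ)
    (hcN : ∀ m, nc N m ≤ cN)
    (hcs : ∀ m, nc N m ^ 2 ≤ 2 * S (τ 0) * (1 + nc N m / 2) ^ 2)
    (hcS : ∀ m : Fin 3, nc N m ^ 2 ≤ 2 * S (τ m.succ) * (1 + nc N m / 2) ^ 2)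
    (hS : ∀ i, S i ≤ s)
    (hX : S (τ 0) + (S (τ 1) + S (τ 2) + S (τ 3)) ≤ (P.X : ℝ) / U6)
    {Sm d0 d1 : ℝ} (hC : IsC Sm d0 d1) (hSm : ∀ k, S k ≤ Sm) (hd : 0 ≤ d1)
    (hd3 : 3 * d1 * (1 + S (τ 0)) ≤ d0) (hd0 : (c0 : ℝ) / U ≤ d0) (hd1 : d1 ≤ (c1 : ℝ) / U)
    {hh : ℕ} {As0 : List Alt} {T0 : Cor} (hT0 : T0.ok A c0 c1 = true) {q0 q1 : ℕ}
    (ht0 : t12ck P As0 0 q0 q1 T0 = true) (hh0 : T0.h = hh)
    {om : ℝ × ℝ → ℝ} {cT : ℝ} (mT : Measurable om) (nT : ∀ t, 0 ≤ om t)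
    (bT : ∃ C, ∀ t, om t ≤ C)
    (pT : ∀ k, TpC a K τ S ((A : ℝ) / U) k ((hh : ℝ) / U)
      (DM ((A : ℝ) / U) N (zc (fun i => a (τ i)) N x) ζp lam
        (fun p t => φ * flP (PN N) p t)
        (fun p t => kap N (vv t) p) (fun _ => 0) (MB σ a l τ)
        (fun j => 1 / qM (fun i => a (τ i)) (fun i j => z (τ i) (τ j)) j)
        (fun p => Pool.Agent.Helper31.SR.am σ a l (τ 0) (τ p.succ))) om)
    (iT : ∫ t in Dl, om t * M3 t ≤ cT)
include h v hz τ hl hP hcN10 hs1 hMρ hx hNd hζp hζ hφ hφl hφu hF hl0 hl1 hcN hcs hcS hS hX hC hSm hd hd3 hd0 hd1 hT0 ht0 hh0 mT nT bT pT iT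

/-- **the cost of a face from the tables**, one table per corner chosen for the position of the
apex; the numbers are left open -/
theorem wcost_face0 {p0 p1 : Fin 3 → ℕ} {As : Fin 3 → List Alt} {T1 : Fin 3 → Cor}
    (g1' : ∀ k, (p0 k : ℝ) / U6 ≤
      prt (b3 (fun i => a (τ i)) x (jj k)) (b3 (fun i => a (τ i)) x (ll k)))
    (g2' : ∀ k, prt (b3 (fun i => a (τ i)) x (jj k)) (b3 (fun i => a (τ i)) x (ll k)) ≤
      (p1 k : ℝ) / U6)
    (g3 : ∀ k, (T1 k).ok A c0 c1 = true) (g4 : ∀ k, t12ck P (As k) 1 (p0 k) (p1 k) (T1 k) = true)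
    (g5 : ∀ k, (T1 k).h = hh) (G : ℝ × ℝ → ℝ) :
    WCost a K τ ((A : ℝ) / U) G
      (DM ((A : ℝ) / U) N (zc (fun i => a (τ i)) N x) ζp lam
        (fun p t => φ * flP (PN N) p t)
        (fun p t => kap N (vv t) p) (fun _ => 0) (MB σ a l τ)
        (fun j => 1 / qM (fun i => a (τ i)) (fun i j => z (τ i) (τ j)) j)
        (fun p => Pool.Agent.Helper31.SR.am σ a l (τ 0) (τ p.succ)))
      ((√2)⁻¹ * (
        ((1 - bk (fun i => a (τ i)) cN x 0) *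
            T0.W (lam12 ((P.X : ℝ) / U6) (S (τ 0)) (S (τ 1)) (S (τ 3)) (S (τ 2))) +
          bk (fun i => a (τ i)) cN x 0 *
            (T1 0).W (lam12 ((P.X : ℝ) / U6) (S (τ 0)) (S (τ 1)) (S (τ 3)) (S (τ 2)))) +
        ((1 - bk (fun i => a (τ i)) cN x 1) *
            T0.W (lam12 ((P.X : ℝ) / U6) (S (τ 0)) (S (τ 2)) (S (τ 1)) (S (τ 3))) +
          bk (fun i => a (τ i)) cN x 1 *
            (T1 1).W (lam12 ((P.X : ℝ) / U6) (S (τ 0)) (S (τ 2)) (S (τ 1)) (S (τ 3)))) +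
        ((1 - bk (fun i => a (τ i)) cN x 2) *
            T0.W (lam12 ((P.X : ℝ) / U6) (S (τ 0)) (S (τ 3)) (S (τ 1)) (S (τ 2))) +
          bk (fun i => a (τ i)) cN x 2 *
            (T1 2).W (lam12 ((P.X : ℝ) / U6) (S (τ 0)) (S (τ 3)) (S (τ 1)) (S (τ 2)))) + cT)) := by
  have hUU : (U6 : ℝ) = (U : ℝ) := rfl
  have hU := U_pos
  have h' := h.perm τ
  have v' := viol_perm v τ
  have hz' := hz.perm τ
  have hN : ∀ k m, 0 ≤ N k m := fun k m => by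
    rw [hNd]
    exact NM_nonneg h' v' hz' k m
  have hn0 : ∀ m, 0 ≤ nc N m := Pool.Agent.Helper73.MEI.SideP.nc_nonneg hN
  have hXp : (0 : ℝ) < (P.X : ℝ) / U6 := _root_.div_pos (Nat.cast_pos.2 hP.Xp) U6_pos
  obtain ⟨hb0, hb1, -⟩ := bk_sum h'.ha (h'.hp x hx) (cN := cN) (s := S (τ 0)) hP.cN0 hcN10
    (v'.le 0 x hx) ((hS _).trans hs1)
  -- the weights
  obtain ⟨L, hL⟩ : ∃ L : Fin 3 → ℕ → ℝ, L = fun k => lam12 ((P.X : ℝ) / U6) (S (τ 0))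
    (S (τ k.succ)) (S (τ (jj k).succ)) (S (τ (ll k).succ)) := ⟨_, rfl⟩
  have hXk : ∀ k : Fin 3, S (τ 0) + S (τ k.succ) + S (τ (jj k).succ) + S (τ (ll k).succ) ≤
      (P.X : ℝ) / U6 := by
    intro k
    fin_cases k
    · show S (τ 0) + S (τ 1) + S (τ 3) + S (τ 2) ≤ _
      linarith
    · show S (τ 0) + S (τ 2) + S (τ 1) + S (τ 3) ≤ _
      linarith
    · show S (τ 0) + S (τ 3) + S (τ 1) + S (τ 2) ≤ _
      linarith
  have hL0 : ∀ k i, 0 ≤ L k i := fun k i => by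
    rw [hL]
    exact lam12_nonneg hXp (v.nn _) (v.nn _) (v.nn _) (v.nn _) (hXk k) i
  have ht0' : ∀ {t : ℝ × ℝ}, t ∈ Dl → ∀ q, 0 ≤ T3 t q := fun ht q => (T3_pos' ht q).le
  -- the certificates
  have pt0 : ∀ k, PtC a K τ S ((A : ℝ) / U) k ((hh : ℝ) / U)
      (fun t => dnn cN ω φ (nc N k) (nc N (jj k)) (nc N (ll k)) (T3 t (jj k)) (T3 t (ll k)))
      (fun t => T0.f (L k) (ch k t)) := by
    intro k
    obtain ⟨r1, r2, r3, r4⟩ := row12_S ht0 hP.Xp (v.nn (τ 0)) (v.nn (τ k.succ))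
      (v.nn (τ (jj k).succ)) (v.nn (τ (ll k).succ)) (hXk k)
    have one := row12_one ht0 hP.Xp (s := S (τ 0)) (x := S (τ k.succ))
      (y := S (τ (jj k).succ)) (z := S (τ (ll k).succ))
    have key := ptC_of_cor h v τ hC hSm hd hd3 hd0 hd1 hT0 (t12ck_iff ht0).2.2.2.2.1 (k := k)
      (hL0 k) (by rw [hL]; exact one) (by rw [hL]; exact r1) (by rw [hL]; exact r2)
      (by rw [hL]; exact r3) (by rw [hL]; exact r4)
      (Dd := fun t => dnn cN ω φ (nc N k) (nc N (jj k)) (nc N (ll k)) (T3 t (jj k))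
        (T3 t (ll k)))
      (fun t ht hk1 hk2 li hli => by
        refine le_trans ?_ (row12_D ht0 (hL0 k) (ht0' ht (jj k)) (ht0' ht (ll k))
          (by have := T3_sum k t; have := ht0' ht k; linarith) hli)
        rw [hL]
        have := Dn_ge hP (v.nn (τ 0)) (v.nn (τ k.succ)) (v.nn (τ (jj k).succ))
          (v.nn (τ (ll k).succ)) (hXk k) (hn0 k) (hn0 (jj k)) (hn0 (ll k)) (hcN k) (hcN (jj k))
          (hcN (ll k)) (hcs k) (hcs (jj k)) (hcs (ll k)) (hcS k) (hcS (jj k)) (hcS (ll k))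
          (φ := φ) (by rw [← TN_ch]; exact hφu) (ht0' ht (jj k)) (ht0' ht (ll k))
          (t12_th ht0 hli)
        rw [Nat.cast_zero]
        exact this)
    rw [hh0] at key
    exact key
  have pt1 : ∀ k, PtC a K τ S ((A : ℝ) / U) k ((hh : ℝ) / U)
      (fun t => dnn cN ω φ (nc N k) (nc N (jj k)) (nc N (ll k)) (T3 t (jj k)) (T3 t (ll k))
        + lam / 2 * abk (fun i => a (τ i)) N ζp x k t)
      (fun t => (T1 k).f (L k) (ch k t)) := by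
    intro k
    obtain ⟨r1, r2, r3, r4⟩ := row12_S (g4 k) hP.Xp (v.nn (τ 0)) (v.nn (τ k.succ))
      (v.nn (τ (jj k).succ)) (v.nn (τ (ll k).succ)) (hXk k)
    have one := row12_one (g4 k) hP.Xp (s := S (τ 0)) (x := S (τ k.succ))
      (y := S (τ (jj k).succ)) (z := S (τ (ll k).succ))
    have key := ptC_of_cor h v τ hC hSm hd hd3 hd0 hd1 (g3 k) (t12ck_iff (g4 k)).2.2.2.2.1
      (k := k) (hL0 k) (by rw [hL]; exact one) (by rw [hL]; exact r1) (by rw [hL]; exact r2)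
      (by rw [hL]; exact r3) (by rw [hL]; exact r4)
      (Dd := fun t => dnn cN ω φ (nc N k) (nc N (jj k)) (nc N (ll k)) (T3 t (jj k))
        (T3 t (ll k)) + lam / 2 * abk (fun i => a (τ i)) N ζp x k t)
      (fun t ht hk1 hk2 li hli => by
        refine le_trans ?_ (row12_D (g4 k) (hL0 k) (ht0' ht (jj k)) (ht0' ht (ll k))
          (by have := T3_sum k t; have := ht0' ht k; linarith) hli)
        rw [hL]
        obtain ⟨ab0, ab1, ab2, ab3⟩ := AB_body h v hz τ (x := x) hNd rfl hζp hζ (Dl_Sim ht)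
          (jj k) (ll k)
        rw [vv_T3] at ab1 ab2 ab3
        obtain ⟨-, -, hok, hnl, -, h01, h1U⟩ := t12ck_iff (g4 k)
        have hA := Alt.ok_le (hok li (by omega)) h01 h1U (g1' k) (g2' k) ab0 ab2 ab3
        have := Dn_ge1 hP (v.nn (τ 0)) (v.nn (τ k.succ)) (v.nn (τ (jj k).succ))
          (v.nn (τ (ll k).succ)) (hXk k) (hn0 k) (hn0 (jj k)) (hn0 (ll k)) (hcN k) (hcN (jj k))
          (hcN (ll k)) (hcs k) (hcs (jj k)) (hcs (ll k)) (hcS k) (hcS (jj k)) (hcS (ll k))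
          (φ := φ) (by rw [← TN_ch]; exact hφu) (ht0' ht (jj k)) (ht0' ht (ll k))
          (t12_th (g4 k) hli) (lam := lam) (by linarith) ab0 hA
        rw [Nat.cast_one]
        exact this)
    rw [g5 k] at key
    exact key
  have hD : ∀ k, ∀ t ∈ Dl, T3 t (jj k) ≤ T3 t k → T3 t (ll k) ≤ T3 t k →
      DM ((A : ℝ) / U) N (zc (fun i => a (τ i)) N x) ζp lam
        (fun p t => φ * flP (PN N) p t)
        (fun p t => kap N (vv t) p) (fun _ => 0) (MB σ a l τ)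
        (fun j => 1 / qM (fun i => a (τ i)) (fun i j => z (τ i) (τ j)) j)
        (fun p => Pool.Agent.Helper31.SR.am σ a l (τ 0) (τ p.succ)) t ≤
      dnn cN ω φ (nc N k) (nc N (jj k)) (nc N (ll k)) (T3 t (jj k)) (T3 t (ll k))
        + bk (fun i => a (τ i)) cN x k * (lam / 2 * abk (fun i => a (τ i)) N ζp x k t) :=
    fun k t ht _ _ => DM_corner h v hz τ hl hP.A0 hP.ρ0 hP.cN2 hP.χ0 hP.χs hP.ω0 hP.ωχ hMρ hx hNd
      hζp hζ hφ hF hl0 hl1 hcN hS ht k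
  have W := wcost_two h v τ (A' := (A : ℝ) / U) (by positivity) (G := G) (hh := (hh : ℝ) / U)
    (Dn := fun k t => dnn cN ω φ (nc N k) (nc N (jj k)) (nc N (ll k)) (T3 t (jj k)) (T3 t (ll k)))
    (AP := fun k t => lam / 2 * abk (fun i => a (τ i)) N ζp x k t)
    (β := bk (fun i => a (τ i)) cN x) hb0 hb1 hD
    (V0 := fun k t => T0.f (L k) (ch k t)) (V1 := fun k t => (T1 k).f (L k) (ch k t))
    (fun k => (Cor.f_meas _ _).comp (ch_meas k)) (fun k => (Cor.f_meas _ _).comp (ch_meas k))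
    (fun k t => Cor.f_nonneg hT0 (hL0 k) _) (fun k t => Cor.f_nonneg (g3 k) (hL0 k) _)
    (fun k => by
      obtain ⟨C, hC⟩ := Cor.f_bd hT0 (hL0 k)
      exact ⟨C, fun t => hC _⟩)
    (fun k => by
      obtain ⟨C, hC⟩ := Cor.f_bd (g3 k) (hL0 k)
      exact ⟨C, fun t => hC _⟩)
    pt0 pt1 mT nT bT pT (fun k => cor_int hT0 (hL0 k) k) (fun k => cor_int (g3 k) (hL0 k) k) iT
  have l0 : L 0 = lam12 ((P.X : ℝ) / U6) (S (τ 0)) (S (τ 1)) (S (τ 3)) (S (τ 2)) := by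
    rw [hL]
    rfl
  have l1' : L 1 = lam12 ((P.X : ℝ) / U6) (S (τ 0)) (S (τ 2)) (S (τ 1)) (S (τ 3)) := by
    rw [hL]
    rfl
  have l2' : L 2 = lam12 ((P.X : ℝ) / U6) (S (τ 0)) (S (τ 3)) (S (τ 1)) (S (τ 2)) := by
    rw [hL]
    rfl
  rw [← l0, ← l1', ← l2']
  exact W

/-- **THE COST OF A FACE FROM THE TABLES** -/
theorem wcost_face {Pl Dv : List ℕ} (hP0 : ∀ v < 12, T0.w v ≤ Pl.getD v 0)
    (cls : ∀ p : ℝ, 0 ≤ p → p ≤ 1 → ∃ (p0 p1 : ℕ) (As : List Alt) (T1 : Cor),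
      (p0 : ℝ) / U6 ≤ p ∧ p ≤ (p1 : ℝ) / U6 ∧ T1.ok A c0 c1 = true ∧
      t12ck P As 1 p0 p1 T1 = true ∧ T1.h = hh ∧ ∀ v < 12, T1.w v ≤ Pl.getD v 0 + Dv.getD v 0)
    {u0 u1 u2 : ℕ} (hf : fck Pl Dv P.X u0 u1 u2 = true) (G : ℝ × ℝ → ℝ) :
    WCost a K τ ((A : ℝ) / U) G
      (DM ((A : ℝ) / U) N (zc (fun i => a (τ i)) N x) ζp lam
        (fun p t => φ * flP (PN N) p t)
        (fun p t => kap N (vv t) p) (fun _ => 0) (MB σ a l τ)
        (fun j => 1 / qM (fun i => a (τ i)) (fun i j => z (τ i) (τ j)) j)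
        (fun p => Pool.Agent.Helper31.SR.am σ a l (τ 0) (τ p.succ)))
      ((u0 : ℝ) / 1000000000 + (u1 : ℝ) / 1000000000 * S (τ 0)
        + (u2 : ℝ) / 1000000000 * (S (τ 1) + S (τ 2) + S (τ 3)) + (√2)⁻¹ * cT) := by
  have hUU : (U6 : ℝ) = (U : ℝ) := rfl
  have hU := U_pos
  have h' := h.perm τ
  have v' := viol_perm v τ
  obtain ⟨hb0, hb1, hb2⟩ := bk_sum h'.ha (h'.hp x hx) (cN := cN) (s := S (τ 0)) hP.cN0 hcN10
    (v'.le 0 x hx) ((hS _).trans hs1)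
  -- the classes
  have hcl : ∀ k : Fin 3, ∃ (p0 p1 : ℕ) (As : List Alt) (T1 : Cor),
      (p0 : ℝ) / U6 ≤ prt (b3 (fun i => a (τ i)) x (jj k)) (b3 (fun i => a (τ i)) x (ll k)) ∧
      prt (b3 (fun i => a (τ i)) x (jj k)) (b3 (fun i => a (τ i)) x (ll k)) ≤ (p1 : ℝ) / U6 ∧
      T1.ok A c0 c1 = true ∧
      t12ck P As 1 p0 p1 T1 = true ∧ T1.h = hh ∧ ∀ v < 12, T1.w v ≤ Pl.getD v 0 + Dv.getD v 0 :=
    fun k => cls _ (prt_nonneg _ _) (prt_le _ _)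
  choose p0 p1 As T1 g1' g2' g3 g4 g5 g6 using hcl
  have W := wcost_face0 h v hz τ hl hP hcN10 hs1 hMρ hx hNd hζp hζ hφ hφl hφu hF hl0 hl1 hcN hcs
    hcS hS hX hC hSm hd hd3 hd0 hd1 hT0 ht0 hh0 mT nT bT pT iT g1' g2' g3 g4 g5 G
  refine W.mono ?_
  -- the numbers
  obtain ⟨L, hL⟩ : ∃ L : Fin 3 → ℕ → ℝ, L = fun k => lam12 ((P.X : ℝ) / U6) (S (τ 0))
    (S (τ k.succ)) (S (τ (jj k).succ)) (S (τ (ll k).succ)) := ⟨_, rfl⟩
  obtain ⟨F, hFd⟩ : ∃ F : Fin 3 → ℕ → ℕ, F = fun k i => if i < 12 then T0.w i else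
    (T1 k).w (i - 12) := ⟨_, rfl⟩
  have hFk : ∀ k, ∀ v < 12, F k v ≤ Pl.getD v 0 ∧ F k (12 + v) ≤ Pl.getD v 0 + Dv.getD v 0 := by
    intro k v hv
    rw [hFd]
    refine ⟨?_, ?_⟩
    · show (if v < 12 then T0.w v else _) ≤ _
      rw [if_pos hv]
      exact hP0 v hv
    · show (if 12 + v < 12 then _ else (T1 k).w (12 + v - 12)) ≤ _
      rw [if_neg (by omega), show 12 + v - 12 = v by omega]
      exact g6 k v hv
  have hk : ∀ k, (1 - bk (fun i => a (τ i)) cN x k) * T0.W (L k)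
      + bk (fun i => a (τ i)) cN x k * (T1 k).W (L k) =
      ∑ i ∈ Finset.range 24, lam24 (L k) (bk (fun i => a (τ i)) cN x k) i *
          ((F k i : ℝ) / (4 * (U6 : ℝ) ^ 4)) := by
    intro k
    rw [sum24]
    have e0 : T0.W (L k) = ∑ v ∈ Finset.range 12, L k v * ((F k v : ℝ) / (4 * (U6 : ℝ) ^ 4)) := by
      unfold Cor.W
      rw [(t12ck_iff ht0).1]
      refine Finset.sum_congr rfl fun v hv => ?_
      have : F k v = T0.w v := by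
        rw [hFd]
        exact if_pos (Finset.mem_range.1 hv)
      rw [this, hUU]
    have e1 : (T1 k).W (L k) =
        ∑ v ∈ Finset.range 12, L k v * ((F k (12 + v) : ℝ) / (4 * (U6 : ℝ) ^ 4)) := by
      unfold Cor.W
      rw [(t12ck_iff (g4 k)).1]
      refine Finset.sum_congr rfl fun v hv => ?_
      have : F k (12 + v) = (T1 k).w v := by
        rw [hFd]
        show (if 12 + v < 12 then _ else (T1 k).w (12 + v - 12)) = _
        rw [if_neg (by omega), show 12 + v - 12 = v by omega]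
      rw [this, hUU]
    rw [e0, e1, Finset.mul_sum, Finset.mul_sum, ← Finset.sum_add_distrib]
    refine Finset.sum_congr rfl fun v _ => ?_
    ring
  have key := face_num8 hP.Xp hf (v.nn (τ 0)) (v.nn (τ 1)) (v.nn (τ 2)) (v.nn (τ 3))
    (by linarith) (hb0 0) (hb0 1) (hb0 2) (hb1 0) (hb1 1) (hb1 2) hb2 (hFk 0) (hFk 1) (hFk 2)
  have l0 : L 0 = lam12 ((P.X : ℝ) / U6) (S (τ 0)) (S (τ 1)) (S (τ 3)) (S (τ 2)) := by
    rw [hL]
    rfl
  have l1' : L 1 = lam12 ((P.X : ℝ) / U6) (S (τ 0)) (S (τ 2)) (S (τ 1)) (S (τ 3)) := by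
    rw [hL]
    rfl
  have l2' : L 2 = lam12 ((P.X : ℝ) / U6) (S (τ 0)) (S (τ 3)) (S (τ 1)) (S (τ 2)) := by
    rw [hL]
    rfl
  rw [← l0, ← l1', ← l2', ← hk 0, ← hk 1, ← hk 2] at key
  rw [← l0, ← l1', ← l2', mul_add]
  linarith

end

end Pool.Agent.Helper23.MEI.J
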