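import Pool.Agent.Helper23.MEI.WJ3
import Pool.Agent.Helper23.MEI.RegJ

/-!
# Project MEI (M2), regime I: the cost `WJ` from the tables

`tip_J` = the tips of a face; `WJ_of_tabs` = `WJ T w1 w2 P` from one table without the apex and a
family of tables with the apex (`A' = 2.085`, losses `l1`).
-/

set_option autoImplicit false

namespace Pool.Agent.Helper23.MEI.J

open Set Metric MeasureTheory Helper80.CW Helper82.CW Helper14.CW Helper93.MEI Helper82.M2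
open Helper14.MEI2 Pool.Agent.Helper52.MEI Pool.Agent.Helper73.MEI Helper37.MEI Helper41.MEI
open Helper33.MEI (Wi Dl tx M3 mt mt_pos M3_pos Dl_meas)
open Pool.Agent.Helper31.SR
open Helper78.MEI
open Helper60.R7 (jj ll ch ch_fst ch_snd ch_meas ex_corner U U_pos mtx mt_mtx mt_ch T3_sum T3_pos'
  cap_ch own_ch int_ch M3_ch)
open Helper60.R8 (Row Ld Cor P3 zR zL z3 afr sS)
open Pool.Agent.Helper55.Apex (nc)
open Pool.Agent.Helper55.Mass (LN LN_nonneg vv vv_nonneg vv_le Id)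
open Pool.Agent.Helper55.ApexP (PN alP alP_nonneg)
open Pool.Agent.Helper73.MEI.SideP (flP)
open Pool.Agent.Helper73.MEI.ArCor (Rng cols)
open Pool.Agent.Helper96.Kap (kap)
open Helper75.MEI2 (omT omT_meas omT_nonneg omT_le omT_int tip_wc)
open scoped RealInnerProductSpace ENNReal

variable {a : Fin 4 → E3} {K : Set E3} {S : Fin 4 → ℝ} {σ : Measure (E3 × E3)}
  {c : Fin 4 → E3} {z : Fin 4 → Fin 4 → E3} {l : Fin 3 → Bool → Bool → E3 × E3 → ℝ}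

/-- nodes and arcs near a corner -/
theorem dnn_small {cN ω φ ni nj nl X Y Cd h : ℝ} (hj : nj ≤ cN) (hl : nl ≤ cN)
    (hC : φ * (2 * ω + 2 / 3 * cN) ≤ Cd) (X0 : 0 ≤ X) (Y0 : 0 ≤ Y) (hX : X ≤ h) (hY : Y ≤ h)
    (hc0 : 0 ≤ cN) (hCd : 0 ≤ Cd) :
    dnn cN ω φ ni nj nl X Y ≤ (2 / 3 * (1 + cN) + Cd) * (2 * h) := by
  unfold dnn
  have k1 := min_le_left (X + Y) ni
  have k2 := mul_le_mul_of_nonneg_right hj X0
  have k3 := mul_le_mul_of_nonneg_right hl Y0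
  have k4 := mul_le_mul_of_nonneg_right hC (show 0 ≤ X + Y by linarith)
  have k5 : (2 / 3 * (1 + cN) + Cd) * (X + Y) ≤ (2 / 3 * (1 + cN) + Cd) * (2 * h) :=
    mul_le_mul_of_nonneg_left (by linarith) (by positivity)
  linarith

theorem jj_cover {k j : Fin 3} (h : j ≠ k) : j = jj k ∨ j = ll k := by
  revert h
  fin_cases k <;> fin_cases j <;> decide

/-- **the tips of a face** -/
theorem tip_J [IsFiniteMeasure σ] (h : CN K σ a c) (v : Viol K a S)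
    (τ : Equiv.Perm (Fin 4)) {A' X : ℝ} (hA : 0 ≤ A')
    (hSX : S (τ 0) + (S (τ 1) + S (τ 2) + S (τ 3)) ≤ X) (hX1 : X ≤ 1 / 100)
    {hh dT y : ℝ} (hh0 : 0 < hh) (hh1 : hh ≤ 1 / 100) (hd0 : 0 ≤ dT) (hd1 : dT ≤ 1)
    (hy : 0.257 + A' * (dT + 1.031 * X) ≤ y) {D : ℝ × ℝ → ℝ}
    (hD : ∀ k, ∀ t ∈ Dl, T3 t (jj k) ≤ hh → T3 t (ll k) ≤ hh → D t ≤ dT) (k : Fin 3) :
    TpC a K τ S A' k hh D
      (omT y (2 * (S (τ 0) + S (τ 1) + hh * (S (τ 1) + S (τ 2) + S (τ 3))) / (1 - 2 * hh))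
        (2 * (S (τ 0) + S (τ 2) + hh * (S (τ 1) + S (τ 2) + S (τ 3))) / (1 - 2 * hh))
        (2 * (S (τ 0) + S (τ 3) + hh * (S (τ 1) + S (τ 2) + S (τ 3))) / (1 - 2 * hh)) hh) := by
  intro t ht hk1 hk2 hj hl q hq hX hG' hG
  have s0 : 0 ≤ S (τ 0) := v.nn _
  have s1 : 0 ≤ S (τ 1) := v.nn _
  have s2 : 0 ≤ S (τ 2) := v.nn _
  have s3 : 0 ≤ S (τ 3) := v.nn _
  have hp : 0 < 1 - 2 * hh := by linarith
  have hC0 : ∀ j : Fin 3, 0 ≤ 2 * (S (τ 0) + S (τ j.succ) +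
      hh * (S (τ 1) + S (τ 2) + S (τ 3))) / (1 - 2 * hh) := fun j => by
    have : 0 ≤ S (τ j.succ) := v.nn _
    positivity
  have key := tip_wc h v τ hA hSX hX1 hh0 hh1 hd0 hd1 hy
    (C := fun j => 2 * (S (τ 0) + S (τ j.succ) + hh * (S (τ 1) + S (τ 2) + S (τ 3))) /
      (1 - 2 * hh)) hC0 (fun j => by
        rw [div_mul_cancel₀ _ hp.ne'])
    ht (k := k) (fun j hjk => by
      rcases jj_cover hjk with e | e
      · rw [e]
        exact hj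
      · rw [e]
        exact hl) hq (G := hG') (D := D t) (hD k t ht hj hl) hX hG
  exact key

/-- the integral of the tips -/
theorem tip_cost {S0 S1 S2 S3 hh y M : ℝ} (h0 : 0 ≤ S0) (h1 : 0 ≤ S1) (h2 : 0 ≤ S2) (h3 : 0 ≤ S3)
    (hh0 : 0 < hh) (hh1 : hh ≤ 1 / 100) (hy : 0 ≤ y) (hM : 0 ≤ M)
    (hMh : 1 ≤ M ^ 2 * (1 - 2 * hh) ^ 3) :
    ∫ t in Dl, omT y (2 * (S0 + S1 + hh * (S1 + S2 + S3)) / (1 - 2 * hh))
        (2 * (S0 + S2 + hh * (S1 + S2 + S3)) / (1 - 2 * hh))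
        (2 * (S0 + S3 + hh * (S1 + S2 + S3)) / (1 - 2 * hh)) hh t * M3 t ≤
      4 * hh * M * y / (1 - 2 * hh) * (3 * S0 + (1 + 3 * hh) * (S1 + S2 + S3)) := by
  have hp : 0 < 1 - 2 * hh := by linarith
  have k := omT_int (y := y) (C0 := 2 * (S0 + S1 + hh * (S1 + S2 + S3)) / (1 - 2 * hh))
    (C1 := 2 * (S0 + S2 + hh * (S1 + S2 + S3)) / (1 - 2 * hh))
    (C2 := 2 * (S0 + S3 + hh * (S1 + S2 + S3)) / (1 - 2 * hh)) (h := hh) (M := M) hy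
    (by positivity) (by positivity) (by positivity) hh0.le (by linarith) hM hMh
  refine k.trans (le_of_eq ?_)
  field_simp
  ring

/-- **`WJ` FROM THE TABLES** -/
theorem WJ_of_tabs {P : Par} {c0 c1 : ℕ} {χ ω g0 g1 : ℝ}
    (hP : POk P ((2085000 : ℕ) / U) 0.0385 0.0458 0.002 χ ω g0 g1 0.2222 0.2222 0.3833)
    (hXP : 2000 ≤ P.X) (hCd : 0.2749 * (2 * ω + 2 / 3 * 0.0458) ≤ 0.11)
    {Sm d0 d1 : ℝ} (hC : IsC Sm d0 d1) (hSm : 0.002 ≤ Sm) (hd : 0 ≤ d1)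
    (hd3 : 3 * d1 * 1.002 ≤ d0) (hd0 : (c0 : ℝ) / U ≤ d0) (hd1 : d1 ≤ (c1 : ℝ) / U)
    {hh : ℕ} {As0 : List Alt} {T0 : Cor} (hT0 : T0.ok 2085000 c0 c1 = true) {q0 q1 : ℕ}
    (ht0 : t12ck P As0 0 q0 q1 T0 = true) (hh0 : T0.h = hh) {Pl Dv : List ℕ}
    (hP0 : ∀ v < 12, T0.w v ≤ Pl.getD v 0)
    (cls : ∀ p : ℝ, 0 ≤ p → p ≤ 1 → ∃ (p0 p1 : ℕ) (As : List Alt) (T1 : Cor),
      (p0 : ℝ) / U6 ≤ p ∧ p ≤ (p1 : ℝ) / U6 ∧ T1.ok 2085000 c0 c1 = true ∧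
      t12ck P As 1 p0 p1 T1 = true ∧ T1.h = hh ∧ ∀ v < 12, T1.w v ≤ Pl.getD v 0 + Dv.getD v 0)
    {u1 u2 : ℕ} (hf : fck Pl Dv P.X 0 u1 u2 = true) (h1 : 0 < hh) (h2 : hh ≤ 10000)
    {y M w1 w2 : ℝ} (hy : 0.257 + 2.085 * (2.4 * ((hh : ℝ) / U) + 1.031 * 0.002) ≤ y)
    (hM : 0 ≤ M) (hMh : 1 ≤ M ^ 2 * (1 - 2 * ((hh : ℝ) / U)) ^ 3)
    (hw1 : (u1 : ℝ) / 1000000000 + 0.70711 *
      (4 * ((hh : ℝ) / U) * M * y / (1 - 2 * ((hh : ℝ) / U)) * 3) ≤ w1)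
    (hw2 : (u2 : ℝ) / 1000000000 + 0.70711 *
      (4 * ((hh : ℝ) / U) * M * y / (1 - 2 * ((hh : ℝ) / U)) * (1 + 3 * ((hh : ℝ) / U))) ≤ w2)
    {T : ℝ} (hT : T ≤ 0.002) (Pr : (Fin 4 → ℝ) → Prop) : WJ T w1 w2 Pr := by
  intro K σ hσ a c hCN S hV hPr hs z hz τ hMρ x hx hxs N hNd R hRd ζp hζp hζ φ hφ hF lam hl0 hl1 e he
  have hU := U_pos
  have hU1 : (U : ℝ) = 1000000 := by
    unfold Helper60.R7.U
    norm_num
  have eA : ((2085000 : ℕ) : ℝ) / U = 2.085 := by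
    rw [hU1]
    norm_num
  have h' := hCN.perm τ
  have v' := viol_perm hV τ
  have hz' := hz.perm τ
  have s0 : 0 ≤ S (τ 0) := hV.nn _
  have s1 : 0 ≤ S (τ 1) := hV.nn _
  have s2 : 0 ≤ S (τ 2) := hV.nn _
  have s3 : 0 ≤ S (τ 3) := hV.nn _
  have hsum : S (τ 0) + (S (τ 1) + S (τ 2) + S (τ 3)) ≤ 0.002 := by
    have e1 : ∑ k, S k = S (τ 0) + S (τ 1) + S (τ 2) + S (τ 3) := by
      rw [← Equiv.sum_comp τ S, Fin.sum_univ_four]
    linarith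
  have hS : ∀ i, S i ≤ 0.002 := fun i =>
    (Finset.single_le_sum (fun k _ => hV.nn k) (Finset.mem_univ i)).trans (hs.trans hT)
  have C := cols rng002 h' v' hz' hsum
  rw [← hNd] at C
  have hN : ∀ k m, 0 ≤ N k m := fun k m => by
    rw [hNd]
    exact NM_nonneg h' v' hz' k m
  have hcN : ∀ m, nc N m ≤ 0.0458 := fun m => (C m).2.1
  have hn0 : ∀ m, 0 ≤ nc N m := Pool.Agent.Helper73.MEI.SideP.nc_nonneg hN
  have hTN0 : 0 ≤ SideP.TN N := SideP.TN_nonneg hN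
  have hTN : SideP.TN N ≤ 0.1374 := by
    have hTs : SideP.TN N = nc N 0 + nc N 1 + nc N 2 := rfl
    have := hcN 0
    have := hcN 1
    have := hcN 2
    rw [hTs]
    linarith
  have hφ1 : φ ≤ 0.2749 := by
    rw [hφ]
    linarith
  have hφ0 : 0.2222 ≤ φ := by
    rw [hφ]
    linarith
  have hXr : (0.002 : ℝ) ≤ (P.X : ℝ) / U6 := by
    have hUU : (U6 : ℝ) = (U : ℝ) := rfl
    rw [hUU, hU1, le_div_iff₀ (by norm_num)]
    have : ((2000 : ℕ) : ℝ) ≤ (P.X : ℝ) := Nat.cast_le.2 hXP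
    push_cast at this
    linarith
  obtain ⟨hr, hhr⟩ : ∃ hr, hr = (hh : ℝ) / U := ⟨_, rfl⟩
  have hr0 : 0 < hr := by
    rw [hhr]
    exact _root_.div_pos (Nat.cast_pos.2 h1) hU
  have hr1 : hr ≤ 1 / 100 := by
    rw [hhr, hU1, div_le_iff₀ (by norm_num)]
    have : (hh : ℝ) ≤ ((10000 : ℕ) : ℝ) := Nat.cast_le.2 h2
    push_cast at this
    linarith
  rw [← hhr] at hy hMh hw1 hw2
  have hω : 0 ≤ 2 * ω + 2 / 3 * 0.0458 := by
    have := hP.ω0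
    positivity
  -- the deficit near a corner
  have hDt : ∀ k, ∀ t ∈ Dl, T3 t (jj k) ≤ hr → T3 t (ll k) ≤ hr →
      (DM ((2085000 : ℕ) / U) N (zc (fun i => a (τ i)) N x) ζp lam
        (fun p t => φ * flP (PN N) p t)
        (fun p t => kap N (vv t) p) (fun _ => 0) (MB σ a (l1 a) τ)
        (fun j => 1 / qM (fun i => a (τ i)) (fun i j => z (τ i) (τ j)) j)
        (fun p => Pool.Agent.Helper31.SR.am σ a (l1 a) (τ 0) (τ p.succ))) t ≤ 2.4 * hr := by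
    intro k t ht hj hl
    have b1 := DM_corner hCN hV hz τ (l1_ok (a := a) hCN.ha) hP.A0 hP.ρ0 hP.cN2 hP.χ0 hP.χs hP.ω0
      hP.ωχ hMρ hx hNd hζp hζ (φ := φ) (by linarith) (by rw [eA]; exact hF) hl0 hl1 hcN hS ht k
    refine b1.trans ?_
    have X0 := (T3_pos' ht (jj k)).le
    have Y0 := (T3_pos' ht (ll k)).le
    have c1 := dnn_small (ω := ω) (φ := φ) (ni := nc N k) (Cd := 0.11) (hcN (jj k)) (hcN (ll k))
      (by
        have := mul_le_mul_of_nonneg_right hφ1 hω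
        linarith) X0 Y0 hj hl (by norm_num) (by norm_num)
    obtain ⟨ab0, ab1, -, -⟩ := AB_body hCN hV hz τ (x := x) hNd rfl hζp hζ (Dl_Sim ht)
      (jj k) (ll k)
    rw [vv_T3] at ab1
    obtain ⟨hb0, hb1, -⟩ := bk_sum h'.ha (h'.hp x hx) (cN := 0.0458) (s := S (τ 0))
      (by norm_num) (by norm_num) (v'.le 0 x hx) ((hS _).trans (by norm_num))
    have c2 : lam / 2 * abk (fun i => a (τ i)) N ζp x k t ≤ 0.3889 * (2 * hr) := by
      refine mul_le_mul (by linarith) ?_ ab0 (by norm_num)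
      refine ab1.trans ?_
      linarith
    have c3 : 0 ≤ lam / 2 * abk (fun i => a (τ i)) N ζp x k t :=
      mul_nonneg (by linarith) ab0
    have c4 := mul_le_mul_of_nonneg_right (hb1 k) c3
    linarith
  have hy0 : 0 ≤ y := by
    have : 0 ≤ hr := hr0.le
    linarith
  have W := wcost_face hCN hV hz τ (l1_ok (a := a) hCN.ha) hP (by norm_num) (by norm_num) hMρ hx
    hNd hζp hζ (φ := φ) (by linarith) hφ0 (by rw [hφ]) (by rw [eA]; exact hF) hl0 hl1 hcN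
    (fun m => (C m).2.2.2.2.2.2.1) (fun m => (C m).2.2.2.2.2.2.2.1) hS (hsum.trans hXr) hC
    (fun k => (hS k).trans hSm) hd
    (by
      have := mul_le_mul_of_nonneg_left (show 1 + S (τ 0) ≤ 1.002 by linarith [hS (τ 0)])
        (show 0 ≤ 3 * d1 by linarith)
      linarith)
    hd0 hd1 hT0 ht0 hh0
    (omT_meas y _ _ _ _)
    (fun t => omT_nonneg hy0 (by
      have hp : 0 < 1 - 2 * hr := by linarith
      positivity) (by
      have hp : 0 < 1 - 2 * hr := by linarith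
      positivity) (by
      have hp : 0 < 1 - 2 * hr := by linarith
      positivity) hr t)
    ⟨6 * y, fun t => omT_le hy0 _ _ _ _ t⟩
    (by
      rw [← hhr]
      exact tip_J hCN hV τ (by rw [eA]; norm_num) hsum (by norm_num) hr0 hr1
        (dT := 2.4 * hr) (y := y) (by linarith) (by linarith) (by rw [eA]; exact hy) hDt)
    (tip_cost s0 s1 s2 s3 hr0 hr1 hy0 hM hMh)
    hP0 cls hf
    (GM 2.085 N (zc (fun i => a (τ i)) N x) ζp lam (fun p t => φ * flP (PN N) p t)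
      (fun p t => kap N (vv t) p) (fun _ => 0) (MB σ a (l1 a) τ)
      (fun p => aE σ a (l1 a) (τ 0) (τ p.succ)) R (fun k => S (τ k.succ)) (S (τ 0)))
  rw [eA] at W
  refine W.mono ?_
  have h2i : (√2)⁻¹ ≤ 0.70711 := by
    rw [inv_le_comm₀ (Real.sqrt_pos.2 (by norm_num)) (by norm_num)]
    rw [show ((0.70711 : ℝ)⁻¹) = √(((0.70711 : ℝ)⁻¹) ^ 2) by
      rw [Real.sqrt_sq (by norm_num)]]
    exact Real.sqrt_le_sqrt (by norm_num)
  have hp : 0 < 1 - 2 * hr := by linarith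
  obtain ⟨B, hB⟩ : ∃ B, B = 4 * hr * M * y / (1 - 2 * hr) := ⟨_, rfl⟩
  have hB0 : 0 ≤ B := by
    rw [hB]
    positivity
  rw [← hB] at hw1 hw2 ⊢
  obtain ⟨V, hVd⟩ : ∃ V, V = S (τ 1) + S (τ 2) + S (τ 3) := ⟨_, rfl⟩
  have hV0 : 0 ≤ V := by
    rw [hVd]
    positivity
  rw [← hVd]
  have k1 : (√2)⁻¹ * (B * (3 * S (τ 0) + (1 + 3 * hr) * V)) ≤
      0.70711 * (B * (3 * S (τ 0) + (1 + 3 * hr) * V)) :=
    mul_le_mul_of_nonneg_right h2i (by positivity)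
  have k2 := mul_le_mul_of_nonneg_right hw1 s0
  have k3 := mul_le_mul_of_nonneg_right hw2 hV0
  have e0 : ((0 : ℕ) : ℝ) / 1000000000 = 0 := by simp
  rw [e0]
  nlinarith

end Pool.Agent.Helper23.MEI.J
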