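import Pool.Agent.Helper23.MEI.WJ4

/-!
# Project MEI (M2), regime I: the parameters of the rows

`POk_const` = constant leak `.0458`; `POk_lin` = leak `g0 + g1 min (s, S)`.
-/

set_option autoImplicit false

namespace Pool.Agent.Helper23.MEI.J

open Helper78.MEI
open Helper60.R7 (U)

theorem U_R : (U : ℝ) = 1000000 := by
  unfold Helper60.R7.U
  norm_num

theorem U6_R : (U6 : ℝ) = 1000000 := by
  unfold U6
  norm_num

/-- the parameters of regime I, general leak -/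
theorem POk_gen {P : Par} {g0 g1 : ℝ} (hX : 0 < P.X) (hK : 666667 ≤ P.K) (hn : NOk P g0 g1)
    (hg : 0 ≤ g1)
    (hleak : ∀ n : ℝ, 0 ≤ n → n ≤ 0.0458 → n * (2 + n) ^ 2 ≤ g0 * (2 + n) ^ 2 + 2 * g1 * n ^ 2)
    (hc0 : 88830 ≤ P.c0) (hc1 : 153230 ≤ P.c1) (hh : 388900 ≤ P.hl) :
    POk P ((2085000 : ℕ) / U) 0.0385 0.0458 0.002 1.2264 0.18461 g0 g1 0.2222 0.2222 0.3833 := by
  have hK' : ((666667 : ℕ) : ℝ) ≤ (P.K : ℝ) := Nat.cast_le.2 hK
  have h0 : ((88830 : ℕ) : ℝ) ≤ (P.c0 : ℝ) := Nat.cast_le.2 hc0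
  have h1 : ((153230 : ℕ) : ℝ) ≤ (P.c1 : ℝ) := Nat.cast_le.2 hc1
  have hh' : ((388900 : ℕ) : ℝ) ≤ (P.hl : ℝ) := Nat.cast_le.2 hh
  push_cast at hK' h0 h1 hh'
  refine ⟨?_, by norm_num, by norm_num, by norm_num, by norm_num, by norm_num, by norm_num,
    by norm_num, hX, ?_, hn, hg, hleak, ?_, ?_, ?_⟩
  · rw [U_R]
    norm_num
  · rw [U6_R, le_div_iff₀ (by norm_num)]
    linarith
  · rw [U6_R, le_div_iff₀ (by norm_num)]
    linarith
  · rw [U6_R, le_div_iff₀ (by norm_num)]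
    linarith
  · rw [U6_R, le_div_iff₀ (by norm_num)]
    linarith

/-- constant leak -/
theorem POk_const {P : Par} (hX : 0 < P.X) (hK : 666667 ≤ P.K) (h0 : 45800 ≤ P.n0)
    (h2 : 45800 ≤ P.n2) (h3 : 45800 ≤ P.n3) (h4 : 45800 ≤ P.n4)
    (hc0 : 88830 ≤ P.c0) (hc1 : 153230 ≤ P.c1) (hh : 388900 ≤ P.hl) :
    POk P ((2085000 : ℕ) / U) 0.0385 0.0458 0.002 1.2264 0.18461 0.0458 0 0.2222 0.2222
      0.3833 := by
  have key : ∀ {n : ℕ}, 45800 ≤ n → (0.0458 : ℝ) ≤ (n : ℝ) / U6 := fun {n} h => by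
    have h' : ((45800 : ℕ) : ℝ) ≤ (n : ℝ) := Nat.cast_le.2 h
    push_cast at h'
    rw [U6_R, le_div_iff₀ (by norm_num)]
    linarith
  refine POk_gen hX hK ⟨key h0, ?_, ?_, ?_⟩ le_rfl ?_ hc0 hc1 hh
  · rw [zero_mul, add_zero]
    exact key h2
  · rw [zero_mul, add_zero]
    exact key h3
  · rw [zero_mul, add_zero]
    exact key h4
  · intro n hn0 hn1
    have := mul_le_mul_of_nonneg_right hn1 (sq_nonneg (2 + n))
    linarith

/-- leak `.0224 + 23.4 min (s, S)` -/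
theorem POk_lin {P : Par} (hX : P.X = 2000) (hK : 666667 ≤ P.K) (h0 : 22400 ≤ P.n0)
    (h2 : 45800 ≤ P.n2) (h3 : 38000 ≤ P.n3) (h4 : 34100 ≤ P.n4)
    (hc0 : 88830 ≤ P.c0) (hc1 : 153230 ≤ P.c1) (hh : 388900 ≤ P.hl) :
    POk P ((2085000 : ℕ) / U) 0.0385 0.0458 0.002 1.2264 0.18461 0.0224 23.4 0.2222 0.2222
      0.3833 := by
  have key : ∀ {n m : ℕ}, m ≤ n → (m : ℝ) / 1000000 ≤ (n : ℝ) / U6 := fun {n m} h => by
    have h' : (m : ℝ) ≤ (n : ℝ) := Nat.cast_le.2 h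
    rw [U6_R]
    exact div_le_div_of_nonneg_right h' (by norm_num)
  have k0 := key h0
  have k2 := key h2
  have k3 := key h3
  have k4 := key h4
  push_cast at k0 k2 k3 k4
  refine POk_gen (by omega) hK ⟨?_, ?_, ?_, ?_⟩ (by norm_num) ?_ hc0 hc1 hh
  · linarith
  · rw [hX, U6_R] at *
    push_cast
    linarith
  · rw [hX, U6_R] at *
    push_cast
    linarith
  · rw [hX, U6_R] at *
    push_cast
    linarith
  · intro n hn0 hn1
    nlinarith [sq_nonneg (n - 0.0458), mul_nonneg hn0 hn0, mul_nonneg (mul_nonneg hn0 hn0) hn0,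
      mul_nonneg hn0 (sq_nonneg (n - 0.0458))]

end Pool.Agent.Helper23.MEI.J
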