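import Pool.Agent.Helper23.MEI.WJ5
import Pool.Agent.Helper75.MEI2.T1z
import Pool.Agent.Helper75.MEI2.T1a
import Pool.Agent.Helper75.MEI2.T1b
import Pool.Agent.Helper75.MEI2.T1c
import Pool.Agent.Helper92.MEI.IsCs

/-!
# Project MEI (M2), regime I: the cost from helper75's tables
-/

set_option autoImplicit false

namespace Pool.Agent.Helper23.MEI.J

open Helper78.MEI
open Helper60.R7 (U)
open Helper60.R8 (Cor)

theorem rk_eq (As : List Alt) (b : ℕ) : ∀ (Rs : List Helper60.R8.Row) (v : ℕ),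
    Helper75.T1p.rk As b v Rs = r12ck Helper75.T1p.P As b v Rs
  | [], _ => rfl
  | R :: Rs, v => by
    unfold Helper75.T1p.rk r12ck
    rw [rk_eq As b Rs (v + 1)]

theorem tk_eq (As : List Alt) (b p0 p1 : ℕ) (Q : Cor) :
    Helper75.T1p.tk As b p0 p1 Q = t12ck Helper75.T1p.P As b p0 p1 Q := by
  unfold Helper75.T1p.tk t12ck
  rw [rk_eq]

theorem POk_T1 : POk Helper75.T1p.P ((2085000 : ℕ) / U) 0.0385 0.0458 0.002 1.2264 0.18461
    0.01581 32.65 0.2222 0.2222 0.3833 := by
  have hX : Helper75.T1p.P.X = 2000 := rfl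
  refine POk_gen (by rw [hX]; norm_num) le_rfl ⟨?_, ?_, ?_, ?_⟩ (by norm_num) ?_ le_rfl le_rfl
    le_rfl
  · rw [U6_R]
    show _ ≤ ((15810 : ℕ) : ℝ) / 1000000
    norm_num
  · rw [U6_R, hX]
    show _ ≤ ((48460 : ℕ) : ℝ) / 1000000
    norm_num
  · rw [U6_R, hX]
    show _ ≤ ((37577 : ℕ) : ℝ) / 1000000
    norm_num
  · rw [U6_R, hX]
    show _ ≤ ((32135 : ℕ) : ℝ) / 1000000
    norm_num
  · intro n hn0 hn1
    have k1 : 0 ≤ n ^ 2 * (0.0458 - n) := mul_nonneg (sq_nonneg n) (by linarith)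
    have k2 : 0 ≤ (n - 3.93676 / 122.54002) ^ 2 := sq_nonneg _
    nlinarith

/-- **the cost of regime I** -/
theorem wj_T1 (Pr : (Fin 4 → ℝ) → Prop) : WJ 0.002 0.0559 0.0226 Pr := by
  have hU : (U : ℝ) = 1000000 := U_R
  have hU6 : (U6 : ℝ) = 1000000 := U6_R
  refine WJ_of_tabs POk_T1 le_rfl (by norm_num) Helper92.IsC.isC00152 (by norm_num) (by norm_num)
    (by norm_num) (c0 := 742000) (c1 := 243500) (by rw [hU]; norm_num) (by rw [hU]; norm_num)
    (hh := 1000) Helper75.T1z.ok (q0 := 0) (q1 := 1000000)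
    (by rw [← tk_eq]; exact Helper75.T1z.tab) rfl Helper75.T1z.wle ?_ Helper75.T1p.fin
    (by norm_num) (by norm_num) (y := 0.26646) (M := 1.00302) ?_ (by norm_num) ?_ ?_ ?_ le_rfl Pr
  · intro p h0 h1
    rcases le_total p (1 / 8) with h | h
    · refine ⟨0, 125000, _, Helper75.T1a.Q, ?_, ?_, Helper75.T1a.ok,
        by rw [← tk_eq]; exact Helper75.T1a.tab, rfl, Helper75.T1a.wle⟩
      · rw [hU6]
        norm_num
        exact h0
      · rw [hU6]
        norm_num
        linarith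
    rcases le_total p (7 / 8) with h' | h'
    · refine ⟨125000, 875000, _, Helper75.T1b.Q, ?_, ?_, Helper75.T1b.ok,
        by rw [← tk_eq]; exact Helper75.T1b.tab, rfl, Helper75.T1b.wle⟩
      · rw [hU6]
        norm_num
        linarith
      · rw [hU6]
        norm_num
        linarith
    · refine ⟨875000, 1000000, _, Helper75.T1c.Q, ?_, ?_, Helper75.T1c.ok,
        by rw [← tk_eq]; exact Helper75.T1c.tab, rfl, Helper75.T1c.wle⟩
      · rw [hU6]
        norm_num
        linarith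
      · rw [hU6]
        norm_num
        exact h1
  · rw [hU]
    norm_num
  · rw [hU]
    norm_num
  · rw [hU]
    norm_num
  · rw [hU]
    norm_num

end Pool.Agent.Helper23.MEI.J
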